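import Mathlib

/-!
# Thin rays of rational polyhedra: definitions
-/

namespace Q58.Thin

/-- `x` is a point of the lattice `ℤⁿ`. -/
def IsInt {n : ℕ} (x : EuclideanSpace ℝ (Fin n)) : Prop := ∀ j, ∃ z : ℤ, x j = z

/-- The rational polyhedron `{x ∈ ℝⁿ : A x ≤ b}`. -/
def polyhedron {n m : ℕ} (A : Matrix (Fin m) (Fin n) ℚ) (b : Fin m → ℚ) :
    Set (EuclideanSpace ℝ (Fin n)) :=
  {x | ∀ i, ∑ j, (A i j : ℝ) * x j ≤ (b i : ℝ)}

/-- The ray `R(y, d) = {y + t d : t ≥ 0}`. -/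
def ray {n : ℕ} (y d : EuclideanSpace ℝ (Fin n)) : Set (EuclideanSpace ℝ (Fin n)) :=
  {x | ∃ t : ℝ, 0 ≤ t ∧ x = y + t • d}

/-- The infimum of `f` over `S` is `-∞`. -/
def UnbddBelowOn {n : ℕ} (f : EuclideanSpace ℝ (Fin n) → ℝ)
    (S : Set (EuclideanSpace ℝ (Fin n))) : Prop :=
  ∀ M : ℝ, ∃ x ∈ S, f x < M

/-- `R(y, d)` is an unbounded thin ray of `P` for `f`: `d ≠ 0`, the ray lies in `P`, and for
every `ε > 0` the function `f` is unbounded below on the lattice points of `P` at distance at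
most `ε` from the ray. -/
def IsUnboundedThinRay {n : ℕ} (P : Set (EuclideanSpace ℝ (Fin n)))
    (f : EuclideanSpace ℝ (Fin n) → ℝ) (y d : EuclideanSpace ℝ (Fin n)) : Prop :=
  d ≠ 0 ∧ ray y d ⊆ P ∧
    ∀ ε : ℝ, 0 < ε → UnbddBelowOn f {x | x ∈ P ∧ IsInt x ∧ ∃ z ∈ ray y d, ‖x - z‖ ≤ ε}

end Q58.Thin
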