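import Mathlib

/-!
# Symmetric trilinear forms and their expansions
-/

namespace Q58.Thin

/-- A symmetric trilinear form on a real normed space together with a bound. -/
structure Tri (W : Type*) [NormedAddCommGroup W] [NormedSpace ℝ W] where
  g : W → W → W → ℝ
  add₁ : ∀ u u' v w, g (u + u') v w = g u v w + g u' v w
  smul₁ : ∀ (c : ℝ) u v w, g (c • u) v w = c * g u v w
  s12 : ∀ u v w, g u v w = g v u w
  s23 : ∀ u v w, g u v w = g u w v
  K : ℝ
  K0 : 0 ≤ K
  bd : ∀ u v w, |g u v w| ≤ K * (‖u‖ * ‖v‖ * ‖w‖)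

namespace Tri

variable {W : Type*} [NormedAddCommGroup W] [NormedSpace ℝ W] (G : Tri W)

lemma add₂ (u v v' w : W) : G.g u (v + v') w = G.g u v w + G.g u v' w := by
  rw [G.s12, G.add₁, G.s12 v, G.s12 v']

lemma add₃ (u v w w' : W) : G.g u v (w + w') = G.g u v w + G.g u v w' := by
  rw [G.s23, G.add₂, G.s23 u w, G.s23 u w']

lemma smul₂ (c : ℝ) (u v w : W) : G.g u (c • v) w = c * G.g u v w := by
  rw [G.s12, G.smul₁, G.s12 v]

lemma smul₃ (c : ℝ) (u v w : W) : G.g u v (c • w) = c * G.g u v w := by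
  rw [G.s23, G.smul₂, G.s23 u w]

lemma zero₁ (v w : W) : G.g 0 v w = 0 := by
  have := G.smul₁ 0 0 v w
  simpa using this

lemma zero₂ (u w : W) : G.g u 0 w = 0 := by rw [G.s12, G.zero₁]

lemma zero₃ (u v : W) : G.g u v 0 = 0 := by rw [G.s23, G.zero₂]

lemma neg₃ (u v w : W) : G.g u v (-w) = -G.g u v w := by
  have := G.smul₃ (-1) u v w
  simpa using this

lemma sub₃ (u v w w' : W) : G.g u v (w - w') = G.g u v w - G.g u v w' := by
  rw [sub_eq_add_neg, G.add₃, G.neg₃]; ring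

lemma s13 (u v w : W) : G.g u v w = G.g w v u := by
  rw [G.s12, G.s23, G.s12]

lemma rot (u v w : W) : G.g u v w = G.g v w u := by
  rw [G.s12, G.s23]

lemma rot' (u v w : W) : G.g u v w = G.g w u v := by
  rw [G.s23, G.s12]

lemma sum₃ {ι : Type*} (s : Finset ι) (u v : W) (f : ι → W) :
    G.g u v (∑ i ∈ s, f i) = ∑ i ∈ s, G.g u v (f i) := by
  classical
  induction s using Finset.induction_on with
  | empty => simp [G.zero₃]
  | insert a s ha ih => rw [Finset.sum_insert ha, Finset.sum_insert ha, G.add₃, ih]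

lemma sum₂ {ι : Type*} (s : Finset ι) (u w : W) (f : ι → W) :
    G.g u (∑ i ∈ s, f i) w = ∑ i ∈ s, G.g u (f i) w := by
  rw [G.s23, G.sum₃]
  exact Finset.sum_congr rfl fun i _ => G.s23 _ _ _

lemma sum₁ {ι : Type*} (s : Finset ι) (v w : W) (f : ι → W) :
    G.g (∑ i ∈ s, f i) v w = ∑ i ∈ s, G.g (f i) v w := by
  rw [G.s12, G.sum₂]
  exact Finset.sum_congr rfl fun i _ => G.s12 _ _ _

/-- cube of a sum -/
lemma cube_add (u v : W) : G.g (u + v) (u + v) (u + v) =
    G.g u u u + 3 * G.g u u v + 3 * G.g u v v + G.g v v v := by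
  simp only [G.add₁, G.add₂, G.add₃]
  have h1 : G.g u v u = G.g u u v := G.s23 _ _ _
  have h2 : G.g v u u = G.g u u v := (G.s12 _ _ _).trans (G.s23 _ _ _)
  have h3 : G.g v u v = G.g u v v := G.s12 _ _ _
  have h4 : G.g v v u = G.g u v v := (G.s23 _ _ _).trans (G.s12 _ _ _)
  rw [h1, h2, h3, h4]; ring

lemma sq_add (a u v : W) : G.g a (u + v) (u + v) =
    G.g a u u + 2 * G.g a u v + G.g a v v := by
  simp only [G.add₂, G.add₃]
  have h1 : G.g a v u = G.g a u v := G.s23 _ _ _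
  rw [h1]; ring

lemma cube_smul (c : ℝ) (u : W) : G.g (c • u) (c • u) (c • u) = c ^ 3 * G.g u u u := by
  rw [G.smul₁, G.smul₂, G.smul₃]; ring

lemma sq_smul (a : W) (c : ℝ) (u : W) : G.g a (c • u) (c • u) = c ^ 2 * G.g a u u := by
  rw [G.smul₂, G.smul₃]; ring

/-- full expansion of `G(x + (s D + ρ))³`. -/
lemma expand (x D ρ : W) (s : ℝ) :
    G.g (x + (s • D + ρ)) (x + (s • D + ρ)) (x + (s • D + ρ)) =
      s ^ 3 * G.g D D D + s ^ 2 * (3 * G.g D D ρ + 3 * G.g D D x)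
      + s * (3 * G.g D ρ ρ + 6 * G.g D x ρ + 3 * G.g D x x)
      + (G.g ρ ρ ρ + 3 * G.g x ρ ρ + 3 * G.g x x ρ + G.g x x x) := by
  rw [G.cube_add, G.sq_add, G.cube_add]
  simp only [G.smul₁, G.smul₂, G.smul₃, G.add₃]
  have h1 : G.g x x D = G.g D x x := G.s13 _ _ _
  have h2 : G.g x D D = G.g D D x := G.rot _ _ _
  have h3 : G.g x D ρ = G.g D x ρ := G.s12 _ _ _
  rw [h1, h2, h3]; ring

/-- If `G(u,u,u) = 0` and all cubes `G(A u + w)³`, `A ≥ 0`, are non-negative then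
`G(u,u,w) ≥ 0`. -/
lemma lex_quad {u w : W} (h0 : G.g u u u = 0)
    (h : ∀ A : ℝ, 0 ≤ A → 0 ≤ G.g (A • u + w) (A • u + w) (A • u + w)) :
    0 ≤ G.g u u w := by
  by_contra hneg
  push Not at hneg
  set a := G.g u u w
  set b := G.g u w w
  set c := G.g w w w
  have key : ∀ A : ℝ, 0 ≤ A → 0 ≤ 3 * A ^ 2 * a + 3 * A * b + c := by
    intro A hA
    have := h A hA
    rw [G.cube_add, G.cube_smul, h0, G.smul₁, G.smul₂, G.smul₁] at this
    linarith
  have hA : 0 ≤ (3 * |b| + |c| + 1) / (-a) + 1 := by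
    have : 0 < -a := by linarith
    positivity
  have h1 := key _ hA
  set A := (3 * |b| + |c| + 1) / (-a) + 1 with hAdef
  have hA1 : 1 ≤ A := by
    have : 0 < -a := by linarith
    have : 0 ≤ (3 * |b| + |c| + 1) / (-a) := by positivity
    linarith
  have hane : -a ≠ 0 := by linarith
  have hAa : A * (-a) = 3 * |b| + |c| + 1 + (-a) := by
    rw [hAdef, add_mul, div_mul_cancel₀ _ hane]; ring
  have hb := le_abs_self b
  have hc := le_abs_self c
  have hbn := abs_nonneg b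
  have hcn := abs_nonneg c
  -- 3A²a = -3A (A(-a)) = -3A(3|b|+|c|+1+(-a))
  have e1 : 3 * A ^ 2 * a = -(3 * A * (3 * |b| + |c| + 1 + (-a))) := by
    rw [← hAa]; ring
  rw [e1] at h1
  have hbA : 3 * A * b ≤ 3 * A * |b| := by
    apply mul_le_mul_of_nonneg_left hb; linarith
  nlinarith [mul_nonneg (by linarith : (0:ℝ) ≤ A) hbn, mul_nonneg (by linarith : (0:ℝ) ≤ A) hcn,
    mul_nonneg (by linarith : (0:ℝ) ≤ A) (by linarith : (0:ℝ) ≤ -a), mul_nonneg (by linarith : (0:ℝ) ≤ A - 1) hcn]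

/-- If a linear function `A a + c` is non-negative for all `A ≥ 0`, then `a ≥ 0`. -/
lemma _root_.Q58.Thin.lin_nonneg {a c : ℝ} (h : ∀ A : ℝ, 0 ≤ A → 0 ≤ A * a + c) : 0 ≤ a := by
  by_contra hneg
  push Not at hneg
  have : 0 < -a := by linarith
  have h1 := h ((|c| + 1) / (-a)) (by positivity)
  have hane : -a ≠ 0 := by linarith
  have e : (|c| + 1) / (-a) * a = -(|c| + 1) := by
    have := div_mul_cancel₀ (|c| + 1) hane
    linarith
  rw [e] at h1
  have := le_abs_self c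
  linarith

lemma lex_lin {u w : W} (h0 : G.g u u u = 0) (h1 : G.g u u w = 0)
    (h : ∀ A : ℝ, 0 ≤ A → 0 ≤ G.g (A • u + w) (A • u + w) (A • u + w)) :
    0 ≤ G.g u w w := by
  have key : ∀ A : ℝ, 0 ≤ A → 0 ≤ A * (3 * G.g u w w) + G.g w w w := by
    intro A hA
    have := h A hA
    rw [G.cube_add, G.cube_smul, h0, G.smul₁, G.smul₂, G.smul₁, h1] at this
    linarith
  have := lin_nonneg key
  linarith

end Tri

end Q58.Thin
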