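import Mathlib
import Pool.Agent.Q58.Thin.Tri

/-!
# Cubic polynomials are restrictions of symmetric trilinear forms
-/

namespace Q58.Thin

open MvPolynomial

/-- Euclidean space of dimension `n`. -/
abbrev V (n : ℕ) := EuclideanSpace ℝ (Fin n)

variable {n : ℕ}

/-- affine point -/
def hat (x : V n) : V n × ℝ := (x, 1)

/-- direction at infinity -/
def dir (x : V n) : V n × ℝ := (x, 0)

lemma hat_add (x v : V n) : hat (x + v) = hat x + dir v := by
  simp [hat, dir]

lemma dir_add (x v : V n) : dir (x + v) = dir x + dir v := by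
  simp [dir]

lemma dir_sub (x v : V n) : dir (x - v) = dir x - dir v := by
  simp [dir]

lemma dir_smul (c : ℝ) (v : V n) : dir (c • v) = c • dir v := by
  simp [dir]

lemma dir_zero : dir (0 : V n) = 0 := rfl

lemma dir_neg (v : V n) : dir (-v) = -dir v := by
  simp [dir]

lemma hat_sub (x v : V n) : dir (x - v) = hat x - hat v := by
  simp [hat, dir]

lemma norm_dir (v : V n) : ‖dir v‖ = ‖v‖ := by
  simp [dir, Prod.norm_def]

lemma norm_hat (v : V n) : ‖hat v‖ ≤ ‖v‖ + 1 := by
  simp [hat, Prod.norm_def]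

namespace Tri

variable {W : Type*} [NormedAddCommGroup W] [NormedSpace ℝ W]

/-- the zero form -/
def zeroT : Tri W where
  g _ _ _ := 0
  add₁ _ _ _ _ := by simp
  smul₁ _ _ _ _ := by simp
  s12 _ _ _ := rfl
  s23 _ _ _ := rfl
  K := 0
  K0 := le_rfl
  bd _ _ _ := by simp

/-- sum of two forms -/
def addT (G H : Tri W) : Tri W where
  g u v w := G.g u v w + H.g u v w
  add₁ _ _ _ _ := by rw [G.add₁, H.add₁]; ring
  smul₁ _ _ _ _ := by rw [G.smul₁, H.smul₁]; ring
  s12 _ _ _ := by rw [G.s12, H.s12]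
  s23 _ _ _ := by rw [G.s23, H.s23]
  K := G.K + H.K
  K0 := add_nonneg G.K0 H.K0
  bd u v w := by
    calc |G.g u v w + H.g u v w| ≤ |G.g u v w| + |H.g u v w| := abs_add_le _ _
      _ ≤ G.K * (‖u‖ * ‖v‖ * ‖w‖) + H.K * (‖u‖ * ‖v‖ * ‖w‖) := add_le_add (G.bd _ _ _) (H.bd _ _ _)
      _ = _ := by ring

/-- scalar multiple of a form -/
def smulT (c : ℝ) (G : Tri W) : Tri W where
  g u v w := c * G.g u v w
  add₁ _ _ _ _ := by rw [G.add₁]; ring
  smul₁ _ _ _ _ := by rw [G.smul₁]; ring
  s12 _ _ _ := by rw [G.s12]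
  s23 _ _ _ := by rw [G.s23]
  K := |c| * G.K
  K0 := mul_nonneg (abs_nonneg _) G.K0
  bd u v w := by
    rw [abs_mul, mul_assoc]
    exact mul_le_mul_of_nonneg_left (G.bd _ _ _) (abs_nonneg _)

/-- symmetrised product of three linear functionals -/
noncomputable def ofLin (a b c : W →L[ℝ] ℝ) : Tri W where
  g u v w := (a u * b v * c w + a u * c v * b w + b u * a v * c w + b u * c v * a w
    + c u * a v * b w + c u * b v * a w) / 6
  add₁ _ _ _ _ := by simp only [map_add]; ring
  smul₁ _ _ _ _ := by simp only [map_smul, smul_eq_mul]; ring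
  s12 _ _ _ := by ring
  s23 _ _ _ := by ring
  K := ‖a‖ * ‖b‖ * ‖c‖
  K0 := by positivity
  bd u v w := by
    have key : ∀ (x y z : W →L[ℝ] ℝ), |x u * y v * z w| ≤ ‖x‖ * ‖y‖ * ‖z‖ * (‖u‖ * ‖v‖ * ‖w‖) := by
      intro x y z
      rw [abs_mul, abs_mul]
      have hx := x.le_opNorm u
      have hy := y.le_opNorm v
      have hz := z.le_opNorm w
      rw [Real.norm_eq_abs] at hx hy hz
      calc |x u| * |y v| * |z w| ≤ (‖x‖ * ‖u‖) * (‖y‖ * ‖v‖) * (‖z‖ * ‖w‖) := by gcongr
        _ = _ := by ring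
    have h1 := key a b c
    have h2 := key a c b
    have h3 := key b a c
    have h4 := key b c a
    have h5 := key c a b
    have h6 := key c b a
    have e2 : ‖a‖ * ‖c‖ * ‖b‖ = ‖a‖ * ‖b‖ * ‖c‖ := by ring
    have e3 : ‖b‖ * ‖a‖ * ‖c‖ = ‖a‖ * ‖b‖ * ‖c‖ := by ring
    have e4 : ‖b‖ * ‖c‖ * ‖a‖ = ‖a‖ * ‖b‖ * ‖c‖ := by ring
    have e5 : ‖c‖ * ‖a‖ * ‖b‖ = ‖a‖ * ‖b‖ * ‖c‖ := by ring
    have e6 : ‖c‖ * ‖b‖ * ‖a‖ = ‖a‖ * ‖b‖ * ‖c‖ := by ring
    rw [e2] at h2
    rw [e3] at h3
    rw [e4] at h4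
    rw [e5] at h5
    rw [e6] at h6
    rw [abs_le] at *
    constructor <;> linarith [h1.1, h1.2, h2.1, h2.2, h3.1, h3.2, h4.1, h4.2, h5.1, h5.2, h6.1, h6.2]

lemma ofLin_diag (a b c : W →L[ℝ] ℝ) (u : W) : (ofLin a b c).g u u u = a u * b u * c u := by
  simp only [ofLin]; ring

end Tri

/-- A function represented by a trilinear form. -/
def Rep (h : V n → ℝ) : Prop := ∃ G : Tri (V n × ℝ), ∀ x, h x = G.g (hat x) (hat x) (hat x)

lemma Rep.zero : Rep (fun _ : V n => (0 : ℝ)) := ⟨Tri.zeroT, fun _ => rfl⟩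

lemma Rep.add {h h' : V n → ℝ} (H : Rep h) (H' : Rep h') : Rep (fun x => h x + h' x) := by
  obtain ⟨G, hG⟩ := H
  obtain ⟨G', hG'⟩ := H'
  exact ⟨G.addT G', fun x => by simp only [Tri.addT, hG, hG']⟩

lemma Rep.smul {h : V n → ℝ} (c : ℝ) (H : Rep h) : Rep (fun x => c * h x) := by
  obtain ⟨G, hG⟩ := H
  exact ⟨G.smulT c, fun x => by simp only [Tri.smulT, hG]⟩

lemma Rep.lin (a b c : (V n × ℝ) →L[ℝ] ℝ) : Rep (fun x : V n => a (hat x) * b (hat x) * c (hat x)) :=
  ⟨Tri.ofLin a b c, fun x => by rw [Tri.ofLin_diag]⟩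

/-- the coordinate functionals -/
noncomputable def co (j : Fin n) : (V n × ℝ) →L[ℝ] ℝ :=
  (EuclideanSpace.proj j).comp (ContinuousLinearMap.fst ℝ (V n) ℝ)

/-- the last coordinate -/
noncomputable def c1 : (V n × ℝ) →L[ℝ] ℝ := ContinuousLinearMap.snd ℝ (V n) ℝ

lemma co_hat (j : Fin n) (x : V n) : co j (hat x) = x j := rfl

lemma c1_hat (x : V n) : c1 (hat x) = 1 := rfl

lemma rep_multiset (M : Multiset (Fin n)) (hM : M.card ≤ 3) :
    Rep (fun x : V n => (M.map fun j => x j).prod) := by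
  rcases Nat.lt_or_ge M.card 1 with h0 | h1
  · have : M = 0 := Multiset.card_eq_zero.1 (by omega)
    subst this
    have := Rep.lin (n := n) c1 c1 c1
    simpa [c1_hat] using this
  rcases Nat.lt_or_ge M.card 2 with h | h2
  · obtain ⟨a, rfl⟩ := Multiset.card_eq_one.1 (by omega : M.card = 1)
    have := Rep.lin (n := n) (co a) c1 c1
    simpa [c1_hat, co_hat] using this
  rcases Nat.lt_or_ge M.card 3 with h | h3
  · obtain ⟨a, b, rfl⟩ := Multiset.card_eq_two.1 (by omega : M.card = 2)
    have := Rep.lin (n := n) (co a) (co b) c1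
    simpa [c1_hat, co_hat] using this
  · obtain ⟨a, b, c, rfl⟩ := Multiset.card_eq_three.1 (by omega : M.card = 3)
    have := Rep.lin (n := n) (co a) (co b) (co c)
    simpa [c1_hat, co_hat, mul_assoc] using this

lemma prod_toMultiset' (d : Fin n →₀ ℕ) (x : V n) :
    ((Finsupp.toMultiset d).map fun j => x j).prod = ∏ i ∈ d.support, x i ^ d i := by
  classical
  induction d using Finsupp.induction_linear with
  | zero => simp
  | add f g hf hg =>
    rw [Finsupp.toMultiset_add, Multiset.map_add, Multiset.prod_add, hf, hg]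
    have h1 : (∏ i ∈ f.support, x i ^ f i) = ∏ i, x i ^ f i := by
      apply Finset.prod_subset (Finset.subset_univ _)
      intro i _ hi
      rw [Finsupp.notMem_support_iff.1 hi, pow_zero]
    have h2 : (∏ i ∈ g.support, x i ^ g i) = ∏ i, x i ^ g i := by
      apply Finset.prod_subset (Finset.subset_univ _)
      intro i _ hi
      rw [Finsupp.notMem_support_iff.1 hi, pow_zero]
    have h3 : (∏ i ∈ (f + g).support, x i ^ (f + g) i) = ∏ i, x i ^ (f + g) i := by
      apply Finset.prod_subset (Finset.subset_univ _)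
      intro i _ hi
      rw [Finsupp.notMem_support_iff.1 hi, pow_zero]
    rw [h1, h2, h3, ← Finset.prod_mul_distrib]
    apply Finset.prod_congr rfl
    intro i _
    rw [Finsupp.add_apply, pow_add]
  | single a b =>
    rw [Finsupp.toMultiset_single]
    by_cases hb : b = 0
    · subst hb; simp
    · rw [Finsupp.support_single _ hb, Multiset.map_nsmul, Multiset.prod_nsmul]
      simp

/-- Every polynomial of degree at most three is represented by a symmetric trilinear form. -/
theorem rep_poly (p : MvPolynomial (Fin n) ℝ) (hp : p.totalDegree ≤ 3) :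
    Rep (fun x : V n => eval (fun j => x j) p) := by
  classical
  have key : ∀ S : Finset (Fin n →₀ ℕ), S ⊆ p.support →
      Rep (fun x : V n => ∑ d ∈ S, p.coeff d * ∏ i ∈ d.support, x i ^ d i) := by
    intro S
    induction S using Finset.induction_on with
    | empty => intro _; simpa using Rep.zero (n := n)
    | insert d S hd ih =>
      intro hS
      have h1 := ih ((Finset.subset_insert _ _).trans hS)
      have hdeg : (Finsupp.toMultiset d).card ≤ 3 := by
        rw [Finsupp.card_toMultiset]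
        exact (le_totalDegree (hS (Finset.mem_insert_self _ _))).trans hp
      have h2 := (rep_multiset (Finsupp.toMultiset d) hdeg).smul (p.coeff d)
      have h3 := h2.add h1
      have e : (fun x : V n => ∑ d ∈ insert d S, p.coeff d * ∏ i ∈ d.support, x i ^ d i) =
          fun x : V n => p.coeff d * ((Finsupp.toMultiset d).map fun j => x j).prod
            + ∑ d ∈ S, p.coeff d * ∏ i ∈ d.support, x i ^ d i := by
        funext x
        rw [Finset.sum_insert hd, prod_toMultiset']
      rw [e]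
      exact h3
  have := key p.support (Finset.Subset.refl _)
  obtain ⟨G, hG⟩ := this
  refine ⟨G, fun x => ?_⟩
  rw [← hG x]
  exact MvPolynomial.eval_eq _ _

end Q58.Thin
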