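import Mathlib
import Pool.Agent.Q58.Thin.Rep
import Pool.Agent.Q58.Thin.Defs

/-!
# Lattice vectors close to a given line, and the first half of the theorem
-/

namespace Q58.Thin

open Filter Topology

variable {n m : ℕ}

lemma IsInt.add {x y : V n} (hx : IsInt x) (hy : IsInt y) : IsInt (x + y) := by
  intro j
  obtain ⟨a, ha⟩ := hx j
  obtain ⟨b, hb⟩ := hy j
  exact ⟨a + b, by simp [ha, hb]⟩

lemma IsInt.neg {x : V n} (hx : IsInt x) : IsInt (-x) := by
  intro j
  obtain ⟨a, ha⟩ := hx j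
  exact ⟨-a, by simp [ha]⟩

lemma IsInt.sub {x y : V n} (hx : IsInt x) (hy : IsInt y) : IsInt (x - y) := by
  rw [sub_eq_add_neg]; exact hx.add hy.neg

lemma IsInt.zsmul {x : V n} (hx : IsInt x) (N : ℤ) : IsInt ((N : ℝ) • x) := by
  intro j
  obtain ⟨a, ha⟩ := hx j
  exact ⟨N * a, by simp [ha]⟩

lemma isInt_zero : IsInt (0 : V n) := fun _ => ⟨0, by simp⟩

/-- Recurrence: multiples of any vector come arbitrarily close to the lattice. -/
lemma exists_return (D : V n) {ε : ℝ} (hε : 0 < ε) (B : ℝ) :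
    ∃ s : ℝ, B ≤ s ∧ ∃ v : V n, IsInt v ∧ ‖v - s • D‖ ≤ ε := by
  set B' : ℝ := max B 1 with hB'
  have hB'1 : 1 ≤ B' := le_max_right _ _
  have hB'B : B ≤ B' := le_max_left _ _
  -- the fractional parts
  let g : ℕ → V n := fun k => (WithLp.toLp 2 fun j => Int.fract ((k : ℝ) * B' * D j) : V n)
  have hg : ∀ k, g k ∈ Metric.closedBall (0 : V n) (Real.sqrt n) := by
    intro k
    rw [mem_closedBall_zero_iff, EuclideanSpace.norm_eq]
    apply Real.sqrt_le_sqrt
    calc ∑ i, ‖(g k) i‖ ^ 2 ≤ ∑ _i : Fin n, (1 : ℝ) := by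
          apply Finset.sum_le_sum
          intro i _
          have h0 : 0 ≤ (g k) i := Int.fract_nonneg _
          have h1 : (g k) i < 1 := Int.fract_lt_one _
          rw [Real.norm_eq_abs, abs_of_nonneg h0]
          nlinarith
      _ = (n : ℝ) := by simp
  obtain ⟨a, -, ψ, hψ, hlim⟩ := tendsto_subseq_of_bounded Metric.isBounded_closedBall hg
  have hcau := hlim.cauchySeq
  rw [Metric.cauchySeq_iff'] at hcau
  obtain ⟨N, hN⟩ := hcau ε hε
  have h1 := hN (N + 1) (Nat.le_succ N)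
  set k := ψ N
  set k' := ψ (N + 1)
  have hkk : k < k' := hψ (Nat.lt_succ_self N)
  refine ⟨((k' : ℝ) - k) * B', ?_,
    (WithLp.toLp 2 fun j => (⌊(k' : ℝ) * B' * D j⌋ : ℝ) - ⌊(k : ℝ) * B' * D j⌋ : V n), ?_, ?_⟩
  · have : (1 : ℝ) ≤ (k' : ℝ) - k := by
      have : (k : ℝ) + 1 ≤ k' := by exact_mod_cast hkk
      linarith
    calc B ≤ B' := hB'B
      _ = 1 * B' := (one_mul _).symm
      _ ≤ ((k' : ℝ) - k) * B' := by gcongr
  · intro j
    exact ⟨⌊(k' : ℝ) * B' * D j⌋ - ⌊(k : ℝ) * B' * D j⌋, by push_cast; rfl⟩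
  · have e : (WithLp.toLp 2 fun j => (⌊(k' : ℝ) * B' * D j⌋ : ℝ) - ⌊(k : ℝ) * B' * D j⌋ : V n)
        - (((k' : ℝ) - k) * B') • D = g k - g k' := by
      ext j
      have ek : (g k) j = (k : ℝ) * B' * D j - ⌊(k : ℝ) * B' * D j⌋ := by
        change Int.fract _ = _
        rw [Int.fract]
      have ek' : (g k') j = (k' : ℝ) * B' * D j - ⌊(k' : ℝ) * B' * D j⌋ := by
        change Int.fract _ = _
        rw [Int.fract]
      simp only [PiLp.sub_apply, PiLp.smul_apply, smul_eq_mul]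
      rw [ek, ek']
      ring
    rw [e, ← dist_eq_norm, dist_comm]
    exact le_of_lt h1

/-- A polyhedron given by finitely many linear inequalities whose functionals take values in a
discrete set on lattice vectors. -/
structure Pol (n m : ℕ) where
  φ : Fin m → V n →L[ℝ] ℝ
  b : Fin m → ℝ
  δ : ℝ
  δ0 : 0 < δ
  disc : ∀ l v, IsInt v → |φ l v| < δ → φ l v = 0

namespace Pol

variable (P : Pol n m)

/-- membership in the polyhedron -/
def Mem (x : V n) : Prop := ∀ l, P.φ l x ≤ P.b l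

/-- membership in the recession cone -/
def Rec (D : V n) : Prop := ∀ l, P.φ l D ≤ 0

lemma Rec.add {P : Pol n m} {D D' : V n} (h : P.Rec D) (h' : P.Rec D') : P.Rec (D + D') := by
  intro l; rw [map_add]; exact add_nonpos (h l) (h' l)

lemma Rec.smul {P : Pol n m} {D : V n} (h : P.Rec D) {c : ℝ} (hc : 0 ≤ c) : P.Rec (c • D) := by
  intro l; rw [map_smul, smul_eq_mul]; exact mul_nonpos_of_nonneg_of_nonpos hc (h l)

lemma rec_zero : P.Rec 0 := fun l => by simp

lemma Rec.sum {P : Pol n m} {ι : Type*} (s : Finset ι) (f : ι → V n) (h : ∀ i ∈ s, P.Rec (f i)) :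
    P.Rec (∑ i ∈ s, f i) := by
  intro l; rw [map_sum]; exact Finset.sum_nonpos fun i hi => h i hi l

/-- lattice vectors in almost the direction `D`, compatible with the facets -/
lemma approx {D : V n} (hD : P.Rec D) {ε : ℝ} (hε : 0 < ε) (B : ℝ) :
    ∃ s : ℝ, B ≤ s ∧ ∃ v : V n, IsInt v ∧ ‖v - s • D‖ ≤ ε ∧
      (∀ l, P.φ l D = 0 → P.φ l v = 0) ∧ (∀ l, P.φ l D < 0 → P.φ l v ≤ -B) := by
  obtain ⟨K, hK0, hK⟩ : ∃ K : ℝ, 0 < K ∧ ∀ l, ‖P.φ l‖ ≤ K := by
    refine ⟨(∑ l, ‖P.φ l‖) + 1, by positivity, fun l => ?_⟩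
    have := Finset.single_le_sum (f := fun l => ‖P.φ l‖) (fun i _ => norm_nonneg _) (Finset.mem_univ l)
    linarith
  set ε' := min ε (P.δ / (2 * K)) with hε'
  have hε'0 : 0 < ε' := lt_min hε (div_pos P.δ0 (by positivity))
  have hev : ∀ᶠ s in (atTop : Filter ℝ), ∀ l, P.φ l D < 0 → s * P.φ l D + P.δ ≤ -B := by
    rw [eventually_all]
    intro l
    by_cases h : P.φ l D < 0
    · have : Tendsto (fun s : ℝ => s * P.φ l D + P.δ) atTop atBot := by
        apply tendsto_atBot_add_const_right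
        exact tendsto_id.atTop_mul_const_of_neg h
      filter_upwards [this.eventually (eventually_le_atBot (-B))] with s hs _
      exact hs
    · exact Eventually.of_forall fun s hs => absurd hs h
  obtain ⟨S, hS⟩ := eventually_atTop.1 hev
  obtain ⟨s, hs, v, hv, hvn⟩ := exists_return D hε'0 (max S B)
  have hdiff : ∀ l, |P.φ l v - s * P.φ l D| < P.δ := by
    intro l
    have e : P.φ l v - s * P.φ l D = P.φ l (v - s • D) := by
      rw [map_sub, map_smul, smul_eq_mul]
    rw [e, ← Real.norm_eq_abs]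
    calc ‖P.φ l (v - s • D)‖ ≤ ‖P.φ l‖ * ‖v - s • D‖ := (P.φ l).le_opNorm _
      _ ≤ K * (P.δ / (2 * K)) := by
          gcongr
          · exact hK l
          · exact hvn.trans (min_le_right _ _)
      _ = P.δ / 2 := by field_simp
      _ < P.δ := by linarith [P.δ0]
  refine ⟨s, (le_max_right _ _).trans hs, v, hv, hvn.trans (min_le_left _ _), ?_, ?_⟩
  · intro l hl
    have := hdiff l
    rw [hl, mul_zero, sub_zero] at this
    exact P.disc l v hv this
  · intro l hl
    have h1 := hdiff l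
    have h2 := hS s ((le_max_left _ _).trans hs) l hl
    rw [abs_lt] at h1
    linarith [h1.2]

lemma mem_add_of {x v : V n} (hx : P.Mem x) (hv : P.Rec v) : P.Mem (x + v) := by
  intro l; rw [map_add]; linarith [hx l, hv l]

end Pol

end Q58.Thin
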