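import Mathlib
import Pool.Agent.Q58.Thin.Approx

/-!
# Multi-scale decomposition of a sequence along an ultrafilter
-/

namespace Q58.Thin

open Filter Topology Asymptotics

variable {n m : ℕ}

/-- remainder after removing the components along `d 0, …, d (r-1)` -/
noncomputable def rem (u d : ℕ → V n) (r k : ℕ) : V n :=
  u k - ∑ j ∈ Finset.range r, (inner ℝ (d j) (u k)) • d j

/-- An orthonormal multi-scale decomposition with `r` scales. -/
structure Dec (U : Ultrafilter ℕ) (u d : ℕ → V n) (r : ℕ) : Prop where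
  on : ∀ i < r, ∀ j < r, inner ℝ (d i) (d j) = if i = j then (1 : ℝ) else 0
  top : ∀ j < r, Tendsto (fun k => inner ℝ (d j) (u k)) U atTop
  lit : ∀ j, j + 1 < r →
    (fun k => inner ℝ (d (j + 1)) (u k)) =o[(U : Filter ℕ)] (fun k => inner ℝ (d j) (u k))
  reml : ∀ j, j + 1 = r →
    (fun k => rem u d r k) =o[(U : Filter ℕ)] (fun k => inner ℝ (d j) (u k))

lemma dec_zero (U : Ultrafilter ℕ) (u : ℕ → V n) : Dec U u 0 0 where
  on := by intro i hi; omega
  top := by intro i hi; omega
  lit := by intro i hi; omega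
  reml := by intro i hi; omega

lemma inner_rem {U : Ultrafilter ℕ} {u d : ℕ → V n} {r : ℕ} (h : Dec U u d r) {j : ℕ} (hj : j < r)
    (k : ℕ) : inner ℝ (d j) (rem u d r k) = 0 := by
  rw [rem, inner_sub_right, inner_sum, Finset.sum_eq_single j]
  · rw [inner_smul_right, h.on j hj j hj]; simp
  · intro i hi hij
    rw [inner_smul_right, h.on j hj i (Finset.mem_range.1 hi), if_neg (fun e => hij e.symm), mul_zero]
  · intro hn
    exact absurd (Finset.mem_range.2 hj) hn

lemma dec_le {U : Ultrafilter ℕ} {u d : ℕ → V n} {r : ℕ} (h : Dec U u d r) : r ≤ n := by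
  have ho : Orthonormal ℝ (fun i : Fin r => d i) := by
    rw [orthonormal_iff_ite]
    intro i j
    rw [h.on i i.2 j j.2]
    simp [Fin.ext_iff]
  have := ho.linearIndependent.fintype_card_le_finrank
  simpa using this

lemma dec_step {U : Ultrafilter ℕ} {u d : ℕ → V n} {r : ℕ} (h : Dec U u d r)
    (hunb : ¬ ∃ C : ℝ, ∀ᶠ k in (U : Filter ℕ), ‖rem u d r k‖ ≤ C) :
    ∃ d' : ℕ → V n, Dec U u d' (r + 1) := by
  have hbig : ∀ C : ℝ, ∀ᶠ k in (U : Filter ℕ), C < ‖rem u d r k‖ := by
    intro C
    have h1 : ¬ ∀ᶠ k in (U : Filter ℕ), ‖rem u d r k‖ ≤ C := fun hc => hunb ⟨C, hc⟩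
    rw [← Ultrafilter.eventually_not] at h1
    exact h1.mono fun k hk => not_le.1 hk
  have htop : Tendsto (fun k => ‖rem u d r k‖) U atTop :=
    tendsto_atTop.2 fun C => (hbig C).mono fun k hk => hk.le
  set w : ℕ → V n := fun k => (‖rem u d r k‖)⁻¹ • rem u d r k with hw
  have hrw : ∀ k, rem u d r k = ‖rem u d r k‖ • w k := by
    intro k
    by_cases h0 : rem u d r k = 0
    · rw [hw]; simp [h0]
    · rw [hw]
      simp only
      rw [smul_smul, mul_inv_cancel₀ (norm_ne_zero_iff.2 h0), one_smul]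
  have hwn : ∀ k, ‖w k‖ ≤ 1 := by
    intro k
    rw [hw]
    simp only
    rw [norm_smul, norm_inv, norm_norm]
    exact inv_mul_le_one
  have hwn1 : ∀ᶠ k in (U : Filter ℕ), ‖w k‖ = 1 := by
    filter_upwards [hbig 0] with k hk
    rw [hw]
    simp only
    rw [norm_smul, norm_inv, norm_norm, inv_mul_cancel₀ hk.ne']
  obtain ⟨e, -, he⟩ := (isCompact_closedBall (0 : V n) 1).ultrafilter_le_nhds (U.map w) (by
    rw [le_principal_iff]
    apply Filter.mem_map.2
    apply Filter.Eventually.of_forall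
    intro k
    rw [mem_closedBall_zero_iff]
    exact hwn k)
  have hlim : Tendsto w U (𝓝 e) := he
  have hen : ‖e‖ = 1 := by
    have h1 : Tendsto (fun k => ‖w k‖) U (𝓝 ‖e‖) := hlim.norm
    have h2 : Tendsto (fun k => ‖w k‖) U (𝓝 1) :=
      tendsto_const_nhds.congr' (hwn1.mono fun k hk => hk.symm)
    exact tendsto_nhds_unique h1 h2
  have hde : ∀ j < r, inner ℝ (d j) e = 0 := by
    intro j hj
    have h1 : Tendsto (fun k => inner ℝ (d j) (w k)) U (𝓝 (inner ℝ (d j) e)) :=
      (tendsto_const_nhds (x := d j)).inner hlim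
    have h2 : (fun k => inner ℝ (d j) (w k)) = fun _ => (0 : ℝ) := by
      funext k
      rw [hw]
      simp only
      rw [inner_smul_right, inner_rem h hj, mul_zero]
    rw [h2] at h1
    exact (tendsto_nhds_unique h1 tendsto_const_nhds)
  have hee : inner ℝ e e = (1 : ℝ) := by
    rw [real_inner_self_eq_norm_sq, hen]; norm_num
  have heu : ∀ k, inner ℝ e (u k) = inner ℝ e (rem u d r k) := by
    intro k
    rw [rem, inner_sub_right, inner_sum, Finset.sum_eq_zero, sub_zero]
    intro j hj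
    rw [inner_smul_right, real_inner_comm (d j) e, hde j (Finset.mem_range.1 hj), mul_zero]
  have heu' : ∀ k, inner ℝ e (u k) = ‖rem u d r k‖ * inner ℝ e (w k) := by
    intro k
    rw [heu k]
    conv_lhs => rw [hrw k]
    rw [inner_smul_right]
  have hlim1 : Tendsto (fun k => inner ℝ e (w k)) U (𝓝 (1 : ℝ)) := by
    rw [← hee]
    exact (tendsto_const_nhds (x := e)).inner hlim
  set d' : ℕ → V n := Function.update d r e with hd'
  have hd'r : d' r = e := Function.update_self _ _ _
  have hd'lt : ∀ j, j ≠ r → d' j = d j := fun j hj => Function.update_of_ne hj _ _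
  have hrem : ∀ k, rem u d' r k = rem u d r k := by
    intro k
    rw [rem, rem]
    congr 1
    apply Finset.sum_congr rfl
    intro j hj
    rw [hd'lt j (Finset.mem_range.1 hj).ne]
  have hrem1 : ∀ k, rem u d' (r + 1) k = ‖rem u d r k‖ • (w k - (inner ℝ e (w k)) • e) := by
    intro k
    have : rem u d' (r + 1) k = rem u d' r k - (inner ℝ (d' r) (u k)) • d' r := by
      rw [rem, rem, Finset.sum_range_succ]; abel
    rw [this, hrem, hd'r, heu' k, smul_sub, ← hrw k, smul_smul]
  refine ⟨d', ?_, ?_, ?_, ?_⟩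
  · intro i hi j hj
    rcases Nat.lt_succ_iff_lt_or_eq.1 hi with hi | rfl
    · rcases Nat.lt_succ_iff_lt_or_eq.1 hj with hj | rfl
      · rw [hd'lt i hi.ne, hd'lt j hj.ne, h.on i hi j hj]
      · rw [hd'lt i hi.ne, hd'r, hde i hi, if_neg hi.ne]
    · rcases Nat.lt_succ_iff_lt_or_eq.1 hj with hj | rfl
      · rw [hd'lt j hj.ne, hd'r, real_inner_comm, hde j hj, if_neg (fun e => hj.ne e.symm)]
      · rw [hd'r, hee, if_pos rfl]
  · intro j hj
    rcases Nat.lt_succ_iff_lt_or_eq.1 hj with hj | rfl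
    · rw [hd'lt j hj.ne]; exact h.top j hj
    · rw [hd'r]
      simp only [heu']
      exact htop.atTop_mul_pos one_pos hlim1
  · intro j hj
    rcases Nat.lt_succ_iff_lt_or_eq.1 hj with hj' | hj'
    · rw [hd'lt j (by omega), hd'lt (j + 1) hj'.ne]; exact h.lit j hj'
    · rw [hj', hd'r, hd'lt j (by omega)]
      have h1 : (fun k => inner ℝ e (u k)) =O[(U : Filter ℕ)] (fun k => rem u d r k) := by
        apply IsBigO.of_bound 1
        apply Eventually.of_forall
        intro k
        rw [heu k, one_mul]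
        calc ‖inner ℝ e (rem u d r k)‖ ≤ ‖e‖ * ‖rem u d r k‖ := norm_inner_le_norm _ _
          _ = ‖rem u d r k‖ := by rw [hen, one_mul]
      exact h1.trans_isLittleO (h.reml j hj')
  · intro j hj
    have hjr : j = r := by omega
    subst hjr
    rw [hd'r]
    have h1 : Tendsto (fun k => w k - (inner ℝ e (w k)) • e) U (𝓝 0) := by
      have := hlim.sub (hlim1.smul_const e)
      simpa using this
    have h2 : (fun k => rem u d' (j + 1) k) =o[(U : Filter ℕ)] (fun k => ‖rem u d j k‖) := by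
      have h3 : (fun k => ‖rem u d j k‖ • (w k - (inner ℝ e (w k)) • e))
          =o[(U : Filter ℕ)] (fun k => ‖rem u d j k‖ • (1 : ℝ)) :=
        (isBigO_refl _ _).smul_isLittleO ((isLittleO_one_iff ℝ).2 h1)
      simp only [smul_eq_mul, mul_one] at h3
      simpa only [hrem1] using h3
    have h4 : (fun k => ‖rem u d j k‖) =O[(U : Filter ℕ)] (fun k => inner ℝ e (u k)) := by
      apply IsBigO.of_bound 2
      have h5 : ∀ᶠ k in (U : Filter ℕ), (1 : ℝ) / 2 < inner ℝ e (w k) :=
        hlim1.eventually (lt_mem_nhds (by norm_num))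
      filter_upwards [h5] with k hk
      rw [heu' k, norm_mul, norm_norm, Real.norm_eq_abs, abs_of_pos (by linarith)]
      have := norm_nonneg (rem u d j k)
      nlinarith
    exact h2.trans_isBigO h4

/-- Existence of a decomposition with bounded remainder. -/
theorem exists_dec (U : Ultrafilter ℕ) (u : ℕ → V n) :
    ∃ r, ∃ d : ℕ → V n, Dec U u d r ∧ ∃ C : ℝ, ∀ᶠ k in (U : Filter ℕ), ‖rem u d r k‖ ≤ C := by
  by_contra hcon
  push Not at hcon
  have key : ∀ r, ∃ d : ℕ → V n, Dec U u d r := by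
    intro r
    induction r with
    | zero => exact ⟨0, dec_zero U u⟩
    | succ r ih =>
      obtain ⟨d, hd⟩ := ih
      apply dec_step hd
      rintro ⟨C, hC⟩
      have h1 : ∀ᶠ k in (U : Filter ℕ), C < ‖rem u d r k‖ := hcon r d hd C
      obtain ⟨k, hk1, hk2⟩ := (h1.and hC).exists
      exact absurd hk2 (not_le.2 hk1)
  obtain ⟨d, hd⟩ := key (n + 1)
  have := dec_le hd
  omega

end Q58.Thin
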