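import Mathlib
import Pool.Agent.Q58.Thin.Approx

/-!
# First half: a bad ray with an integral base point yields an unbounded thin ray
-/

namespace Q58.Thin

open Filter Topology

variable {n m : ℕ}

lemma neg_cubic {a b c d C M s γ : ℝ} (hγ : 0 < γ) (hC : 0 ≤ C) (hs1 : 1 ≤ s)
    (hs : (3 * C + |M| + 1) / γ ≤ s) (ha : a ≤ -γ) (hb : b ≤ C) (hc : c ≤ C) (hd : d ≤ C) :
    s ^ 3 * a + s ^ 2 * b + s * c + d < M := by
  have hs0 : 0 ≤ s := by linarith
  have h1 : 3 * C + |M| + 1 ≤ s * γ := by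
    rwa [div_le_iff₀ hγ] at hs
  have hs2 : 1 ≤ s ^ 2 := by nlinarith
  have e1 : s ^ 3 * a ≤ s ^ 3 * (-γ) := mul_le_mul_of_nonneg_left ha (by positivity)
  have e2 : s ^ 2 * b ≤ s ^ 2 * C := mul_le_mul_of_nonneg_left hb (by positivity)
  have e3 : s * c ≤ s ^ 2 * C := by
    have : s * c ≤ s * C := mul_le_mul_of_nonneg_left hc hs0
    have : s * C ≤ s ^ 2 * C := mul_le_mul_of_nonneg_right (by nlinarith) hC
    linarith
  have e4 : d ≤ s ^ 2 * C := by
    have : C ≤ s ^ 2 * C := by nlinarith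
    linarith
  have e5 : s ^ 3 * (-γ) = -(s ^ 2 * (s * γ)) := by ring
  have e6 : s ^ 2 * (3 * C + |M| + 1) ≤ s ^ 2 * (s * γ) :=
    mul_le_mul_of_nonneg_left h1 (by positivity)
  have e7 : |M| + 1 ≤ s ^ 2 * (|M| + 1) := by
    have := abs_nonneg M
    nlinarith
  have := neg_abs_le M
  nlinarith

lemma neg_quad {b c d C M s γ : ℝ} (hγ : 0 < γ) (hC : 0 ≤ C) (hs1 : 1 ≤ s)
    (hs : (3 * C + |M| + 1) / γ ≤ s) (hb : b ≤ -γ) (hc : c ≤ C) (hd : d ≤ C) :
    s ^ 2 * b + s * c + d < M := by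
  have hs0 : 0 ≤ s := by linarith
  have h1 : 3 * C + |M| + 1 ≤ s * γ := by
    rwa [div_le_iff₀ hγ] at hs
  have e1 : s ^ 2 * b ≤ s ^ 2 * (-γ) := mul_le_mul_of_nonneg_left hb (by positivity)
  have e2 : s * c ≤ s * C := mul_le_mul_of_nonneg_left hc hs0
  have e3 : s * (3 * C + |M| + 1) ≤ s * (s * γ) := mul_le_mul_of_nonneg_left h1 hs0
  have e4 : C ≤ s * C := by nlinarith
  have e5 : |M| + 1 ≤ s * (|M| + 1) := by
    have := abs_nonneg M
    nlinarith
  have := neg_abs_le M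
  nlinarith

lemma neg_lin {c d C M s γ : ℝ} (hγ : 0 < γ) (hC : 0 ≤ C) (hs1 : 1 ≤ s)
    (hs : (3 * C + |M| + 1) / γ ≤ s) (hc : c ≤ -γ) (hd : d ≤ C) :
    s * c + d < M := by
  have hs0 : 0 ≤ s := by linarith
  have h1 : 3 * C + |M| + 1 ≤ s * γ := by
    rwa [div_le_iff₀ hγ] at hs
  have e1 : s * c ≤ s * (-γ) := mul_le_mul_of_nonneg_left hc hs0
  have := neg_abs_le M
  nlinarith

section

variable (P : Pol n m) (G : Tri (V n × ℝ))

/-- the cubic function attached to the form -/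
def cub (x : V n) : ℝ := G.g (hat x) (hat x) (hat x)

/-- the conclusion of part one: all thin neighbourhoods of the ray `R(x,D)` are bad -/
def Bad (x D : V n) : Prop :=
  ∀ ε : ℝ, 0 < ε → ∀ M : ℝ, ∃ z : V n, P.Mem z ∧ IsInt z ∧
    (∃ t : ℝ, 0 ≤ t ∧ ‖z - (x + t • D)‖ ≤ ε) ∧ cub G z < M

variable {P G}

lemma cub_expand (x D v : V n) (s : ℝ) :
    cub G (x + v) =
      s ^ 3 * G.g (dir D) (dir D) (dir D)
      + s ^ 2 * (3 * G.g (dir D) (dir D) (dir (v - s • D)) + 3 * G.g (dir D) (dir D) (hat x))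
      + s * (3 * G.g (dir D) (dir (v - s • D)) (dir (v - s • D))
          + 6 * G.g (dir D) (hat x) (dir (v - s • D)) + 3 * G.g (dir D) (hat x) (hat x))
      + (G.g (dir (v - s • D)) (dir (v - s • D)) (dir (v - s • D))
          + 3 * G.g (hat x) (dir (v - s • D)) (dir (v - s • D))
          + 3 * G.g (hat x) (hat x) (dir (v - s • D)) + G.g (hat x) (hat x) (hat x)) := by
  have e : hat (x + v) = hat x + (s • dir D + dir (v - s • D)) := by
    rw [hat_add, ← dir_smul, ← dir_add]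
    congr 2
    abel
  rw [cub, e, G.expand]

/-- uniform bound for the lower-order coefficients -/
lemma coeff_bounds (x D : V n) : ∃ C : ℝ, 0 ≤ C ∧ ∀ ρ : V n, ‖ρ‖ ≤ 1 →
    (3 * G.g (dir D) (dir D) (dir ρ) + 3 * G.g (dir D) (dir D) (hat x) ≤ C) ∧
    (3 * G.g (dir D) (dir ρ) (dir ρ) + 6 * G.g (dir D) (hat x) (dir ρ)
      + 3 * G.g (dir D) (hat x) (hat x) ≤ C) ∧
    (G.g (dir ρ) (dir ρ) (dir ρ) + 3 * G.g (hat x) (dir ρ) (dir ρ)
      + 3 * G.g (hat x) (hat x) (dir ρ) + G.g (hat x) (hat x) (hat x) ≤ C) := by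
  set N : ℝ := ‖dir D‖ + ‖hat x‖ + 1 with hN
  have hN1 : 1 ≤ N := by
    have := norm_nonneg (dir D); have := norm_nonneg (hat x); linarith
  have hND : ‖dir D‖ ≤ N := by have := norm_nonneg (hat x); linarith
  have hNx : ‖hat x‖ ≤ N := by have := norm_nonneg (dir D); linarith
  have hK := G.K0
  have gen : ∀ u v w : V n × ℝ, ‖u‖ ≤ N → ‖v‖ ≤ N → ‖w‖ ≤ N → G.g u v w ≤ G.K * (N * N * N) := by
    intro u v w hu hv hw
    refine (le_abs_self _).trans ((G.bd u v w).trans ?_)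
    gcongr
  refine ⟨12 * (G.K * (N * N * N)), by positivity, fun ρ hρ => ?_⟩
  have hρN : ‖dir ρ‖ ≤ N := by rw [norm_dir]; linarith
  have hp : 0 ≤ G.K * (N * N * N) := by positivity
  refine ⟨?_, ?_, ?_⟩
  · linarith [gen _ _ _ hND hND hρN, gen _ _ _ hND hND hNx]
  · linarith [gen _ _ _ hND hρN hρN, gen _ _ _ hND hNx hρN, gen _ _ _ hND hNx hNx]
  · linarith [gen _ _ _ hρN hρN hρN, gen _ _ _ hNx hρN hρN, gen _ _ _ hNx hNx hρN,
      gen _ _ _ hNx hNx hNx]

lemma mem_add_approx {x D v : V n} (hx : P.Mem x) (hD : P.Rec D)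
    (h0 : ∀ l, P.φ l D = 0 → P.φ l v = 0) (h1 : ∀ l, P.φ l D < 0 → P.φ l v ≤ 0) :
    P.Mem (x + v) := by
  apply P.mem_add_of hx
  intro l
  rcases (hD l).lt_or_eq with h | h
  · exact h1 l h
  · exact (h0 l h).le

/-- cubic case -/
lemma bad_cubic {x D : V n} (hx : P.Mem x) (hxi : IsInt x) (hD : P.Rec D)
    (h : G.g (dir D) (dir D) (dir D) < 0) : Bad P G x D := by
  intro ε hε M
  obtain ⟨C, hC, hb⟩ := coeff_bounds (G := G) x D
  set γ := -G.g (dir D) (dir D) (dir D) with hγ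
  have hγ0 : 0 < γ := by linarith
  obtain ⟨s, hs, v, hv, hvn, hv0, hv1⟩ := P.approx hD (lt_min hε one_pos)
    (max 1 ((3 * C + |M| + 1) / γ))
  have hs1 : 1 ≤ s := (le_max_left _ _).trans hs
  have hs2 : (3 * C + |M| + 1) / γ ≤ s := (le_max_right _ _).trans hs
  refine ⟨x + v, mem_add_approx hx hD hv0 (fun l hl => (hv1 l hl).trans ?_), hxi.add hv,
    ⟨s, by linarith, ?_⟩, ?_⟩
  · have : (1 : ℝ) ≤ max 1 ((3 * C + |M| + 1) / γ) := le_max_left _ _
    linarith
  · have : x + v - (x + s • D) = v - s • D := by abel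
    rw [this]; exact hvn.trans (min_le_left _ _)
  · obtain ⟨b1, b2, b3⟩ := hb (v - s • D) (hvn.trans (min_le_right _ _))
    rw [cub_expand x D v s]
    exact neg_cubic hγ0 hC hs1 hs2 (by linarith) b1 b2 b3

/-- quadratic case -/
lemma bad_quad {x D : V n} (hx : P.Mem x) (hxi : IsInt x) (hD : P.Rec D)
    (h0 : G.g (dir D) (dir D) (dir D) = 0) (h : G.g (dir D) (dir D) (hat x) < 0) :
    Bad P G x D := by
  intro ε hε M
  obtain ⟨C, hC, hb⟩ := coeff_bounds (G := G) x D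
  set γ := -G.g (dir D) (dir D) (hat x) with hγ
  have hγ0 : 0 < γ := by linarith
  set K' := G.K * (‖dir D‖ * ‖dir D‖) + 1 with hK'
  have hK'0 : 0 < K' := by have := G.K0; positivity
  obtain ⟨s, hs, v, hv, hvn, hv0, hv1⟩ := P.approx hD
    (lt_min (lt_min hε one_pos) (div_pos hγ0 (mul_pos (by norm_num : (0:ℝ) < 2) hK'0)))
    (max 1 ((3 * C + |M| + 1) / γ))
  have hs1 : 1 ≤ s := (le_max_left _ _).trans hs
  have hs2 : (3 * C + |M| + 1) / γ ≤ s := (le_max_right _ _).trans hs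
  refine ⟨x + v, mem_add_approx hx hD hv0 (fun l hl => (hv1 l hl).trans ?_), hxi.add hv,
    ⟨s, by linarith, ?_⟩, ?_⟩
  · have : (1 : ℝ) ≤ max 1 ((3 * C + |M| + 1) / γ) := le_max_left _ _
    linarith
  · have : x + v - (x + s • D) = v - s • D := by abel
    rw [this]; exact hvn.trans ((min_le_left _ _).trans (min_le_left _ _))
  · obtain ⟨b1, b2, b3⟩ := hb (v - s • D) (hvn.trans ((min_le_left _ _).trans (min_le_right _ _)))
    have hsmall : G.g (dir D) (dir D) (dir (v - s • D)) ≤ γ / 2 := by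
      refine (le_abs_self _).trans ((G.bd _ _ _).trans ?_)
      have hρ : ‖dir (v - s • D)‖ ≤ γ / (2 * K') := by
        rw [norm_dir]; exact hvn.trans (min_le_right _ _)
      calc G.K * (‖dir D‖ * ‖dir D‖ * ‖dir (v - s • D)‖)
          = (G.K * (‖dir D‖ * ‖dir D‖)) * ‖dir (v - s • D)‖ := by ring
        _ ≤ K' * (γ / (2 * K')) := by
            have := G.K0
            gcongr
            linarith
        _ = γ / 2 := by field_simp
    rw [cub_expand x D v s, h0, mul_zero, zero_add]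
    exact neg_quad hγ0 hC hs1 hs2 (by linarith) b2 b3

/-- linear case, assuming `G(D,D,·)` vanishes on the relevant lattice -/
lemma bad_lin {x D : V n} (hx : P.Mem x) (hxi : IsInt x) (hD : P.Rec D)
    (h0 : G.g (dir D) (dir D) (dir D) = 0) (h1 : G.g (dir D) (dir D) (hat x) = 0)
    (h : G.g (dir D) (hat x) (hat x) < 0)
    (hL : ∀ v : V n, IsInt v → (∀ l, P.φ l D = 0 → P.φ l v = 0) →
      G.g (dir D) (dir D) (dir v) = 0) :
    Bad P G x D := by
  intro ε hε M
  obtain ⟨C, hC, hb⟩ := coeff_bounds (G := G) x D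
  set γ := -G.g (dir D) (hat x) (hat x) with hγ
  have hγ0 : 0 < γ := by linarith
  set K' := G.K * (‖dir D‖ * 1 + 2 * (‖dir D‖ * ‖hat x‖)) + 1 with hK'
  have hK'0 : 0 < K' := by have := G.K0; positivity
  obtain ⟨s, hs, v, hv, hvn, hv0, hv1⟩ := P.approx hD
    (lt_min (lt_min hε one_pos) (div_pos hγ0 (mul_pos (by norm_num : (0:ℝ) < 2) hK'0)))
    (max 1 ((3 * C + |M| + 1) / γ))
  have hs1 : 1 ≤ s := (le_max_left _ _).trans hs
  have hs2 : (3 * C + |M| + 1) / γ ≤ s := (le_max_right _ _).trans hs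
  refine ⟨x + v, mem_add_approx hx hD hv0 (fun l hl => (hv1 l hl).trans ?_), hxi.add hv,
    ⟨s, by linarith, ?_⟩, ?_⟩
  · have : (1 : ℝ) ≤ max 1 ((3 * C + |M| + 1) / γ) := le_max_left _ _
    linarith
  · have : x + v - (x + s • D) = v - s • D := by abel
    rw [this]; exact hvn.trans ((min_le_left _ _).trans (min_le_left _ _))
  · have hρ1 : ‖v - s • D‖ ≤ 1 := hvn.trans ((min_le_left _ _).trans (min_le_right _ _))
    obtain ⟨b1, b2, b3⟩ := hb (v - s • D) hρ1
    have hz : G.g (dir D) (dir D) (dir (v - s • D)) = 0 := by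
      rw [dir_sub, G.sub₃, hL v hv hv0, dir_smul, G.smul₃, h0]; ring
    have hsmall : G.g (dir D) (dir (v - s • D)) (dir (v - s • D))
        + 2 * G.g (dir D) (hat x) (dir (v - s • D)) ≤ γ / 2 := by
      have hρ : ‖dir (v - s • D)‖ ≤ γ / (2 * K') := by
        rw [norm_dir]; exact hvn.trans (min_le_right _ _)
      have hρ1' : ‖dir (v - s • D)‖ ≤ 1 := by rw [norm_dir]; exact hρ1
      have a1 := (le_abs_self _).trans (G.bd (dir D) (dir (v - s • D)) (dir (v - s • D)))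
      have a2 := (le_abs_self _).trans (G.bd (dir D) (hat x) (dir (v - s • D)))
      have hK0 := G.K0
      have a3 : G.K * (‖dir D‖ * ‖dir (v - s • D)‖ * ‖dir (v - s • D)‖)
          ≤ G.K * (‖dir D‖ * 1 * ‖dir (v - s • D)‖) := by gcongr
      calc _ ≤ G.K * (‖dir D‖ * 1 * ‖dir (v - s • D)‖)
            + 2 * (G.K * (‖dir D‖ * ‖hat x‖ * ‖dir (v - s • D)‖)) := by linarith
        _ = (G.K * (‖dir D‖ * 1 + 2 * (‖dir D‖ * ‖hat x‖))) * ‖dir (v - s • D)‖ := by ring
        _ ≤ K' * (γ / (2 * K')) := by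
            gcongr
            linarith
        _ = γ / 2 := by field_simp
    rw [cub_expand x D v s, h0, h1, hz]
    have := neg_lin (d := G.g (dir (v - s • D)) (dir (v - s • D)) (dir (v - s • D))
          + 3 * G.g (hat x) (dir (v - s • D)) (dir (v - s • D))
          + 3 * G.g (hat x) (hat x) (dir (v - s • D)) + G.g (hat x) (hat x) (hat x))
      (c := 3 * G.g (dir D) (dir (v - s • D)) (dir (v - s • D))
          + 6 * G.g (dir D) (hat x) (dir (v - s • D)) + 3 * G.g (dir D) (hat x) (hat x))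
      (M := M) hγ0 hC hs1 hs2 (by linarith) b3
    linarith

/-- The linear case in general. -/
lemma bad_of_lin {x D : V n} (hx : P.Mem x) (hxi : IsInt x) (hD : P.Rec D)
    (h0 : G.g (dir D) (dir D) (dir D) = 0) (h1 : G.g (dir D) (dir D) (hat x) = 0)
    (h : G.g (dir D) (hat x) (hat x) < 0) :
    ∃ x' : V n, P.Mem x' ∧ Bad P G x' D := by
  by_cases hL : ∀ v : V n, IsInt v → (∀ l, P.φ l D = 0 → P.φ l v = 0) →
      G.g (dir D) (dir D) (dir v) = 0
  · exact ⟨x, hx, bad_lin hx hxi hD h0 h1 h hL⟩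
  · push Not at hL
    obtain ⟨w, hw, hwl, hne⟩ := hL
    -- choose the sign
    obtain ⟨w, hw, hwl, hneg⟩ : ∃ w : V n, IsInt w ∧ (∀ l, P.φ l D = 0 → P.φ l w = 0) ∧
        G.g (dir D) (dir D) (dir w) < 0 := by
      rcases lt_or_gt_of_ne hne with h' | h'
      · exact ⟨w, hw, hwl, h'⟩
      · refine ⟨-w, hw.neg, fun l hl => by rw [map_neg, hwl l hl, neg_zero], ?_⟩
        rw [dir_neg, G.neg₃]; linarith
    set η := -G.g (dir D) (dir D) (dir w) with hη
    have hη0 : 0 < η := by linarith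
    set K' := G.K * (‖dir D‖ * ‖dir D‖) + 1 with hK'
    have hK'0 : 0 < K' := by have := G.K0; positivity
    obtain ⟨B, hB⟩ : ∃ B : ℝ, ∀ l, P.φ l w ≤ B := by
      refine ⟨∑ l, |P.φ l w|, fun l => (le_abs_self _).trans ?_⟩
      exact Finset.single_le_sum (f := fun l => |P.φ l w|) (fun i _ => abs_nonneg _)
        (Finset.mem_univ l)
    obtain ⟨s, hs, v, hv, hvn, hv0, hv1⟩ := P.approx hD
      (div_pos hη0 (mul_pos (by norm_num : (0:ℝ) < 2) hK'0)) B
    have hmem : P.Mem (x + (w + v)) := by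
      apply P.mem_add_of hx
      intro l
      rw [map_add]
      rcases (hD l).lt_or_eq with hl | hl
      · have := hv1 l hl
        have := hB l
        linarith
      · rw [hwl l hl, hv0 l hl, add_zero]
    refine ⟨x + (w + v), hmem, bad_quad hmem (hxi.add (hw.add hv)) hD h0 ?_⟩
    have hsmall : G.g (dir D) (dir D) (dir (v - s • D)) ≤ η / 2 := by
      refine (le_abs_self _).trans ((G.bd _ _ _).trans ?_)
      have hρ : ‖dir (v - s • D)‖ ≤ η / (2 * K') := by rw [norm_dir]; exact hvn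
      calc G.K * (‖dir D‖ * ‖dir D‖ * ‖dir (v - s • D)‖)
          = (G.K * (‖dir D‖ * ‖dir D‖)) * ‖dir (v - s • D)‖ := by ring
        _ ≤ K' * (η / (2 * K')) := by
            have := G.K0
            gcongr
            linarith
        _ = η / 2 := by field_simp
    have hz : G.g (dir D) (dir D) (dir v) = G.g (dir D) (dir D) (dir (v - s • D)) := by
      rw [dir_sub, G.sub₃, dir_smul, G.smul₃, h0]; ring
    rw [hat_add, dir_add, G.add₃, G.add₃, h1, hz]
    linarith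

end

end Q58.Thin
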