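import Mathlib
import Pool.Agent.Q58.Thin.Decomp

/-!
# Scales in the recession cone
-/

namespace Q58.Thin

open Filter Topology Asymptotics

variable {n m : ℕ}

lemma pos_of_equiv {U : Ultrafilter ℕ} {g T : ℕ → ℝ} {c : ℝ} (hT : Tendsto T U atTop)
    (hg : (fun k => g k - T k * c) =o[(U : Filter ℕ)] T) (hc : 0 < c) (b : ℝ) :
    ∀ᶠ k in (U : Filter ℕ), b < g k := by
  have h1 := hg.bound (half_pos hc)
  filter_upwards [h1, hT.eventually_gt_atTop 0, hT.eventually_gt_atTop (2 * |b| / c)] with k h1 h2 h3
  rw [Real.norm_eq_abs, Real.norm_eq_abs, abs_of_pos h2, abs_le] at h1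
  rw [div_lt_iff₀ hc] at h3
  have := le_abs_self b
  linarith [h1.1]

lemma neg_of_equiv {U : Ultrafilter ℕ} {g T : ℕ → ℝ} {c : ℝ} (hT : Tendsto T U atTop)
    (hg : (fun k => g k - T k * c) =o[(U : Filter ℕ)] T) (hc : c < 0) :
    ∀ᶠ k in (U : Filter ℕ), g k < 0 := by
  have h1 := hg.bound (half_pos (neg_pos.2 hc))
  filter_upwards [h1, hT.eventually_gt_atTop 0] with k h1 h2
  rw [Real.norm_eq_abs, Real.norm_eq_abs, abs_of_pos h2, abs_le] at h1
  have : T k * c < 0 := mul_neg_of_pos_of_neg h2 hc
  linarith [h1.2]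

lemma dec_lit {U : Ultrafilter ℕ} {u d : ℕ → V n} {r : ℕ} (h : Dec U u d r) :
    ∀ i j, i < j → j < r →
      (fun k => inner ℝ (d j) (u k)) =o[(U : Filter ℕ)] (fun k => inner ℝ (d i) (u k)) := by
  intro i j hij hj
  induction j with
  | zero => omega
  | succ j ih =>
    rcases Nat.lt_succ_iff_lt_or_eq.1 hij with h1 | h1
    · exact (h.lit j hj).trans (ih h1 (by omega))
    · subst h1; exact h.lit i hj

lemma sum_by_parts' {E : Type*} [AddCommGroup E] [Module ℝ E] (α : ℕ → ℝ) (S : ℕ → E) (hS : S 0 = 0)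
    (r : ℕ) : ∑ i ∈ Finset.range r, (α i - α (i + 1)) • S (i + 1) =
      ∑ i ∈ Finset.range r, α i • (S (i + 1) - S i) - α r • S r := by
  induction r with
  | zero => simp [hS]
  | succ r ih =>
    rw [Finset.sum_range_succ, ih, Finset.sum_range_succ, sub_smul, smul_sub]
    abel

/-- Data of a multi-scale decomposition inside the recession cone. -/
structure Scales (P : Pol n m) (U : Ultrafilter ℕ) (u : ℕ → V n) where
  r : ℕ
  s : ℕ → V n
  τ : ℕ → ℕ → ℝ
  y : ℕ → V n
  C : ℝ
  eq : ∀ k, u k = ∑ i ∈ Finset.range r, τ i k • s i + y k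
  yb : ∀ᶠ k in (U : Filter ℕ), ‖y k‖ ≤ C
  top : ∀ i < r, Tendsto (τ i) U atTop
  lit : ∀ i j, i < j → j < r → (τ j) =o[(U : Filter ℕ)] (τ i)
  recc : ∀ i < r, P.Rec (s i)
  last : ∀ l, (∀ i < r, P.φ l (s i) = 0) ∨ (0 < r ∧ P.φ l (s (r - 1)) < 0)

theorem exists_scales (P : Pol n m) (U : Ultrafilter ℕ) (u : ℕ → V n) (hu : ∀ k, P.Mem (u k)) :
    Nonempty (Scales P U u) := by
  classical
  obtain ⟨r, d, hd, C, hC⟩ := exists_dec U u
  set T : ℕ → ℕ → ℝ := fun j k => inner ℝ (d j) (u k) with hT
  set S : ℕ → ℕ → V n := fun i k => ∑ j ∈ Finset.range i, T j k • d j with hS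
  have htop : ∀ j < r, Tendsto (T j) U atTop := hd.top
  have hlit : ∀ i j, i < j → j < r → (T j) =o[(U : Filter ℕ)] (T i) := dec_lit hd
  have hu_eq : ∀ k, u k = S r k + rem u d r k := by
    intro k
    simp only [hS, hT, rem]
    abel
  -- sign analysis
  have hpart : ∀ l : Fin m, ∀ i ≤ r, ∀ j₀ < i, (∀ j < j₀, P.φ l (d j) = 0) →
      (fun k => P.φ l (S i k) - T j₀ k * P.φ l (d j₀)) =o[(U : Filter ℕ)] (T j₀) := by
    intro l i hi j₀ hj₀ hz
    have e : (fun k => P.φ l (S i k) - T j₀ k * P.φ l (d j₀)) =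
        fun k => ∑ j ∈ Finset.range i, (if j = j₀ then 0 else T j k * P.φ l (d j)) := by
      funext k
      have h1 : P.φ l (S i k) = ∑ j ∈ Finset.range i, T j k * P.φ l (d j) := by
        simp only [hS, map_sum, map_smul, smul_eq_mul]
      rw [h1, ← Finset.add_sum_erase _ _ (Finset.mem_range.2 hj₀), add_sub_cancel_left]
      rw [← Finset.add_sum_erase _ _ (Finset.mem_range.2 hj₀), if_pos rfl, zero_add]
      apply Finset.sum_congr rfl
      intro j hj
      rw [if_neg (Finset.ne_of_mem_erase hj)]
    rw [e]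
    apply IsLittleO.fun_sum
    intro j hj
    have hji := Finset.mem_range.1 hj
    by_cases h1 : j = j₀
    · simp [h1]
    · simp only [if_neg h1]
      rcases Nat.lt_or_gt_of_ne h1 with h2 | h2
      · simp [hz j h2]
      · have := hlit j₀ j h2 (by omega)
        simpa [mul_comm] using this.const_mul_left (P.φ l (d j))
  have hsign : ∀ l : Fin m, ∀ i ≤ r, ∀ᶠ k in (U : Filter ℕ),
      P.φ l (S i k) ≤ 0 ∧ ((∀ j < i, P.φ l (d j) = 0) ∨ P.φ l (S i k) < 0) := by
    intro l i hi
    by_cases h0 : ∀ j < i, P.φ l (d j) = 0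
    · apply Eventually.of_forall
      intro k
      have : P.φ l (S i k) = 0 := by
        simp only [hS, map_sum, map_smul, smul_eq_mul]
        apply Finset.sum_eq_zero
        intro j hj
        rw [h0 j (Finset.mem_range.1 hj), mul_zero]
      exact ⟨this.le, Or.inl h0⟩
    · push Not at h0
      have hex : ∃ j, j < i ∧ P.φ l (d j) ≠ 0 := h0
      set j₀ := Nat.find hex with hj₀
      obtain ⟨hj₀i, hne⟩ := Nat.find_spec hex
      have hz : ∀ j < j₀, P.φ l (d j) = 0 := by
        intro j hj
        by_contra hcon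
        exact Nat.find_min hex hj ⟨by omega, hcon⟩
      have hTtop := htop j₀ (by omega)
      -- the functional on `u`
      have hU : (fun k => P.φ l (u k) - T j₀ k * P.φ l (d j₀)) =o[(U : Filter ℕ)] (T j₀) := by
        have h1 := hpart l r le_rfl j₀ (by omega) hz
        have h2 : (fun k => P.φ l (rem u d r k)) =o[(U : Filter ℕ)] (T j₀) := by
          have h3 : (fun k => P.φ l (rem u d r k)) =O[(U : Filter ℕ)] (fun _ => (1 : ℝ)) := by
            apply IsBigO.of_bound (‖P.φ l‖ * C)
            filter_upwards [hC] with k hk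
            rw [norm_one, mul_one]
            exact ((P.φ l).le_opNorm _).trans (mul_le_mul_of_nonneg_left hk (norm_nonneg _))
          exact h3.trans_isLittleO (isLittleO_const_left_of_ne one_ne_zero |>.2
            (tendsto_norm_atTop_atTop.comp hTtop))
        have h4 := h1.add h2
        refine h4.congr_left fun k => ?_
        rw [hu_eq k, map_add]; ring
      have hneg : P.φ l (d j₀) < 0 := by
        rcases lt_or_gt_of_ne hne with h | h
        · exact h
        · exfalso
          obtain ⟨k, hk⟩ := (pos_of_equiv hTtop hU h (P.b l)).exists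
          exact absurd (hu k l) (not_le.2 hk)
      filter_upwards [neg_of_equiv hTtop (hpart l i hi j₀ hj₀i hz) hneg] with k hk
      exact ⟨hk.le, Or.inr hk⟩
  have hall : ∀ᶠ k in (U : Filter ℕ), (∀ l : Fin m, ∀ i ∈ Finset.range (r + 1),
      P.φ l (S i k) ≤ 0 ∧ ((∀ j < i, P.φ l (d j) = 0) ∨ P.φ l (S i k) < 0)) ∧
      ∀ j ∈ Finset.range r, 0 < T j k := by
    apply Eventually.and
    · rw [eventually_all]
      intro l
      rw [Filter.eventually_all_finset]
      intro i hi
      exact hsign l i (by have := Finset.mem_range.1 hi; omega)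
    · rw [Filter.eventually_all_finset]
      intro j hj
      exact (htop j (Finset.mem_range.1 hj)).eventually_gt_atTop 0
  obtain ⟨k₁, hk₁, hk₂⟩ := hall.exists
  set α : ℕ → ℕ → ℝ := fun i k => if i < r then T i k / T i k₁ else 0 with hα
  have hαlt : ∀ i < r, α i = fun k => T i k / T i k₁ := by
    intro i hi; funext k; simp only [hα, if_pos hi]
  have hTpos : ∀ i < r, 0 < T i k₁ := fun i hi => hk₂ i (Finset.mem_range.2 hi)
  have hαtop : ∀ i < r, Tendsto (α i) U atTop := by
    intro i hi
    rw [hαlt i hi]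
    exact (htop i hi).atTop_div_const (hTpos i hi)
  have hαlit : ∀ i j, i < j → i < r → (α j) =o[(U : Filter ℕ)] (α i) := by
    intro i j hij hi
    by_cases hj : j < r
    · rw [hαlt i hi, hαlt j hj]
      have h1 := hlit i j hij hj
      have h2 : (fun k => T j k / T j k₁) =o[(U : Filter ℕ)] (T i) := by
        have := h1.const_mul_left (T j k₁)⁻¹
        refine this.congr_left fun k => by ring
      have h3 : (T i) =O[(U : Filter ℕ)] (fun k => T i k / T i k₁) := by
        apply IsBigO.of_bound (T i k₁)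
        apply Eventually.of_forall
        intro k
        rw [norm_div, Real.norm_eq_abs (T i k₁), abs_of_pos (hTpos i hi),
          mul_div_cancel₀ _ (hTpos i hi).ne']
      exact h2.trans_isBigO h3
    · have : α j = fun _ => 0 := by funext k; simp only [hα, if_neg hj]
      rw [this]
      exact isLittleO_zero _ _
  set τ : ℕ → ℕ → ℝ := fun i k => α i k - α (i + 1) k with hτ
  have hequiv : ∀ i < r, IsEquivalent (U : Filter ℕ) (τ i) (α i) := by
    intro i hi
    have h1 := (hαlit i (i + 1) (Nat.lt_succ_self i) hi).neg_left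
    unfold IsEquivalent
    refine h1.congr_left fun k => ?_
    simp only [hτ, Pi.sub_apply]
    ring
  refine ⟨⟨r, fun i => S (i + 1) k₁, τ, rem u d r, C, ?_, hC, ?_, ?_, ?_, ?_⟩⟩
  · intro k
    have h1 := sum_by_parts' (fun i => α i k) (fun i => S i k₁) (by simp [hS]) r
    have h2 : ∀ i ∈ Finset.range r, α i k • (S (i + 1) k₁ - S i k₁) = T i k • d i := by
      intro i hi
      have hi' := Finset.mem_range.1 hi
      have h3 : S (i + 1) k₁ - S i k₁ = T i k₁ • d i := by
        simp only [hS, Finset.sum_range_succ]; abel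
      rw [h3, hαlt i hi', smul_smul, div_mul_cancel₀ _ (hTpos i hi').ne']
    rw [Finset.sum_congr rfl h2] at h1
    have h4 : α r k = 0 := by simp [hα]
    simp only [h4, zero_smul, sub_zero] at h1
    rw [hu_eq k]
    congr 1
    simp only [hτ]
    exact h1.symm
  · intro i hi
    exact (hequiv i hi).symm.tendsto_atTop (hαtop i hi)
  · intro i j hij hj
    have h1 := (hequiv j hj).isBigO
    have h2 := hαlit i j hij (by omega)
    have h3 := (hequiv i (by omega)).isBigO_symm
    exact (h1.trans_isLittleO h2).trans_isBigO h3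
  · intro i hi l
    exact (hk₁ l (i + 1) (Finset.mem_range.2 (by omega))).1
  · intro l
    rcases (hk₁ l r (Finset.mem_range.2 (by omega))).2 with h | h
    · left
      intro i hi
      simp only [hS, map_sum, map_smul, smul_eq_mul]
      apply Finset.sum_eq_zero
      intro j hj
      rw [h j (by have := Finset.mem_range.1 hj; omega), mul_zero]
    · by_cases hr : r = 0
      · subst hr
        left
        intro i hi; omega
      · right
        refine ⟨by omega, ?_⟩
        have : r - 1 + 1 = r := by omega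
        simp only [this]
        exact h

end Q58.Thin
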