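import Mathlib
import Pool.Agent.Q58.Thin.PartOne
import Pool.Agent.Q58.Thin.Scales

/-!
# Second half: without bad rays the cubic function is bounded below on the lattice points
-/

namespace Q58.Thin

open Filter Topology Asymptotics

variable {n m : ℕ}

/-- There is no bad ray. -/
def NoBad (P : Pol n m) (G : Tri (V n × ℝ)) : Prop :=
  ∀ x D, P.Mem x → P.Rec D → D ≠ 0 → ¬ Bad P G x D

section basic

variable {P : Pol n m} {G : Tri (V n × ℝ)}

lemma nb_a (hN : NoBad P G) {x : V n} (hx : P.Mem x) (hxi : IsInt x) {D : V n} (hD : P.Rec D) :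
    0 ≤ G.g (dir D) (dir D) (dir D) := by
  by_cases h0 : D = 0
  · subst h0; rw [dir_zero, G.zero₁]
  · by_contra hcon
    exact hN x D hx hD h0 (bad_cubic hx hxi hD (not_le.1 hcon))

lemma nb_b (hN : NoBad P G) {x : V n} (hx : P.Mem x) (hxi : IsInt x) {D : V n} (hD : P.Rec D)
    (h : G.g (dir D) (dir D) (dir D) = 0) : 0 ≤ G.g (dir D) (dir D) (hat x) := by
  by_cases h0 : D = 0
  · subst h0; rw [dir_zero, G.zero₁]
  · by_contra hcon
    exact hN x D hx hD h0 (bad_quad hx hxi hD h (not_le.1 hcon))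

lemma nb_c (hN : NoBad P G) {x : V n} (hx : P.Mem x) (hxi : IsInt x) {D : V n} (hD : P.Rec D)
    (h : G.g (dir D) (dir D) (dir D) = 0) (h' : G.g (dir D) (dir D) (hat x) = 0) :
    0 ≤ G.g (dir D) (hat x) (hat x) := by
  by_cases h0 : D = 0
  · subst h0; rw [dir_zero, G.zero₁]
  · by_contra hcon
    obtain ⟨x', hx', hbad⟩ := bad_of_lin hx hxi hD h h' (not_le.1 hcon)
    exact hN x' D hx' hD h0 hbad

lemma cub_iik (hN : NoBad P G) {x : V n} (hx : P.Mem x) (hxi : IsInt x) {a c : V n} (ha : P.Rec a)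
    (hc : P.Rec c) (h0 : G.g (dir a) (dir a) (dir a) = 0) :
    0 ≤ G.g (dir a) (dir a) (dir c) := by
  apply G.lex_quad h0
  intro A hA
  rw [← dir_smul, ← dir_add]
  exact nb_a hN hx hxi ((ha.smul hA).add hc)

lemma cub_ijj (hN : NoBad P G) {x : V n} (hx : P.Mem x) (hxi : IsInt x) {a c : V n} (ha : P.Rec a)
    (hc : P.Rec c) (h0 : G.g (dir a) (dir a) (dir a) = 0) (h1 : G.g (dir a) (dir a) (dir c) = 0) :
    0 ≤ G.g (dir a) (dir c) (dir c) := by
  apply G.lex_lin h0 h1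
  intro A hA
  rw [← dir_smul, ← dir_add]
  exact nb_a hN hx hxi ((ha.smul hA).add hc)

lemma cub_ijk (hN : NoBad P G) {x : V n} (hx : P.Mem x) (hxi : IsInt x) {a b c : V n}
    (ha : P.Rec a) (hb : P.Rec b)
    (hc : P.Rec c) (h0 : G.g (dir a) (dir a) (dir a) = 0) (h1 : G.g (dir a) (dir a) (dir b) = 0)
    (h2 : G.g (dir a) (dir a) (dir c) = 0) (h3 : G.g (dir a) (dir b) (dir b) = 0) :
    0 ≤ G.g (dir a) (dir b) (dir c) := by
  have key : ∀ B : ℝ, 0 ≤ B → 0 ≤ B * (2 * G.g (dir a) (dir b) (dir c)) + G.g (dir a) (dir c) (dir c) := by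
    intro B hB
    have h4 : G.g (dir a) (dir a) (dir (B • b + c)) = 0 := by
      rw [dir_add, dir_smul, G.add₃, G.smul₃, h1, h2]; ring
    have h5 := cub_ijj hN hx hxi ha ((hb.smul hB).add hc) h0 h4
    rw [dir_add, dir_smul, G.sq_add, G.sq_smul, h3, G.smul₂] at h5
    linarith
  have := lin_nonneg key
  linarith

end basic

/-- The data of the proof. -/
structure Ctx (n m : ℕ) where
  P : Pol n m
  G : Tri (V n × ℝ)
  U : Ultrafilter ℕ
  u : ℕ → V n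
  hN : NoBad P G
  hint : ∀ k, IsInt (u k)
  hmem : ∀ k, P.Mem (u k)
  sc : Scales P U u
  k₀ : ℕ
  hX : ∀ᶠ k in (U : Filter ℕ), ∀ l, (∀ i < sc.r, P.φ l (sc.s i) = 0) →
    P.φ l (u k) = P.φ l (u k₀)

namespace Ctx

variable (c : Ctx n m)

/-- number of scales -/
abbrev r : ℕ := c.sc.r

/-- the scale vectors -/
abbrev s : ℕ → V n := c.sc.s

/-- facets constant along all scales -/
def I₀ (l : Fin m) : Prop := ∀ i < c.r, c.P.φ l (c.s i) = 0

/-- the relevant lattice -/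
def Lam (v : V n) : Prop := IsInt v ∧ ∀ l, c.I₀ l → c.P.φ l v = 0

/-- the relevant coset -/
def X (x : V n) : Prop := IsInt x ∧ ∀ l, c.I₀ l → c.P.φ l x = c.P.φ l (c.u c.k₀)

lemma X0 : c.X (c.u c.k₀) := ⟨c.hint _, fun _ _ => rfl⟩

lemma X_add {x v : V n} (hx : c.X x) (hv : c.Lam v) : c.X (x + v) :=
  ⟨hx.1.add hv.1, fun l hl => by rw [map_add, hx.2 l hl, hv.2 l hl, add_zero]⟩

lemma Lam_zsmul {v : V n} (hv : c.Lam v) (N : ℤ) : c.Lam ((N : ℝ) • v) :=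
  ⟨hv.1.zsmul N, fun l hl => by rw [map_smul, hv.2 l hl, smul_zero]⟩

lemma ev_X : ∀ᶠ k in (c.U : Filter ℕ), c.X (c.u k) := by
  filter_upwards [c.hX] with k hk
  exact ⟨c.hint k, fun l hl => hk l hl⟩

lemma approx_s {i : ℕ} (hi : i < c.r) {ε : ℝ} (hε : 0 < ε) (B : ℝ) :
    ∃ σ : ℝ, B ≤ σ ∧ ∃ v : V n, c.Lam v ∧ ‖v - σ • c.s i‖ ≤ ε ∧ c.P.Rec v := by
  obtain ⟨σ, hσ, v, hv, hvn, h0, h1⟩ := c.P.approx (c.sc.recc i hi) hε (max B 0)
  refine ⟨σ, (le_max_left _ _).trans hσ, v, ⟨hv, fun l hl => h0 l (hl i hi)⟩, hvn, fun l => ?_⟩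
  rcases (c.sc.recc i hi l).lt_or_eq with h | h
  · have := h1 l h
    have h2 : (0 : ℝ) ≤ max B 0 := le_max_right _ _
    linarith
  · exact (h0 l h).le

lemma lift {x : V n} (hr : 0 < c.r) (hx : c.X x) {ε : ℝ} (hε : 0 < ε) :
    ∃ σ : ℝ, ∃ v : V n, c.Lam v ∧ ‖v - σ • c.s (c.r - 1)‖ ≤ ε ∧ c.P.Mem (x + v) := by
  obtain ⟨B, hB⟩ : ∃ B : ℝ, ∀ l, c.P.φ l x - c.P.b l ≤ B := by
    refine ⟨∑ l, |c.P.φ l x - c.P.b l|, fun l => (le_abs_self _).trans ?_⟩
    exact Finset.single_le_sum (f := fun l => |c.P.φ l x - c.P.b l|) (fun i _ => abs_nonneg _)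
      (Finset.mem_univ l)
  have hr1 : c.r - 1 < c.r := by omega
  obtain ⟨σ, hσ, v, hv, hvn, h0, h1⟩ := c.P.approx (c.sc.recc (c.r - 1) hr1) hε B
  have hLam : c.Lam v := ⟨hv, fun l hl => h0 l (hl _ hr1)⟩
  refine ⟨σ, v, hLam, hvn, fun l => ?_⟩
  rw [map_add]
  rcases c.sc.last l with h | h
  · have hI : c.I₀ l := h
    rw [hLam.2 l hI, add_zero, hx.2 l hI]
    exact c.hmem _ l
  · have := h1 l h.2
    have := hB l
    linarith

/-- a small error bound -/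
lemma small (a b : V n × ℝ) {η : ℝ} (hη : 0 < η) :
    ∃ ε : ℝ, 0 < ε ∧ ∀ ρ : V n, ‖ρ‖ ≤ ε → |c.G.g a b (dir ρ)| ≤ η := by
  set K' := c.G.K * (‖a‖ * ‖b‖) + 1 with hK'
  have hK'0 : 0 < K' := by have := c.G.K0; positivity
  refine ⟨η / K', div_pos hη hK'0, fun ρ hρ => (c.G.bd _ _ _).trans ?_⟩
  rw [norm_dir]
  calc c.G.K * (‖a‖ * ‖b‖ * ‖ρ‖) = (c.G.K * (‖a‖ * ‖b‖)) * ‖ρ‖ := by ring
    _ ≤ K' * (η / K') := by
        have := c.G.K0
        gcongr
        linarith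
    _ = η := by field_simp

lemma G_approx (a b : V n × ℝ) (v D : V n) (σ : ℝ) :
    c.G.g a b (dir v) = σ * c.G.g a b (dir D) + c.G.g a b (dir (v - σ • D)) := by
  rw [dir_sub, c.G.sub₃, dir_smul, c.G.smul₃]; ring

/-- A functional of the form `G(a,b,·)` which vanishes on the last scale and is non-negative on
the lattice points of the polyhedron in the coset is non-negative on the coset. -/
lemma nonneg_X_of_mem (hr : 0 < c.r) {a b : V n × ℝ} (hl : c.G.g a b (dir (c.s (c.r - 1))) = 0)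
    (h : ∀ x, c.X x → c.P.Mem x → 0 ≤ c.G.g a b (hat x)) {x : V n} (hx : c.X x) :
    0 ≤ c.G.g a b (hat x) := by
  by_contra hneg
  push Not at hneg
  obtain ⟨ε, hε, hsm⟩ := c.small a b (half_pos (neg_pos.2 hneg))
  obtain ⟨σ, v, hv, hvn, hmem⟩ := c.lift hr hx hε
  have h1 := h (x + v) (c.X_add hx hv) hmem
  rw [hat_add, c.G.add₃, c.G_approx a b v (c.s (c.r - 1)) σ, hl, mul_zero, zero_add] at h1
  have h2 := hsm _ hvn
  rw [abs_le] at h2
  linarith [h2.2]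

/-- If `G(a,b,·)` is non-negative on the coset then it vanishes on the lattice. -/
lemma zero_Lam {a b : V n × ℝ} (h : ∀ x, c.X x → 0 ≤ c.G.g a b (hat x)) {v : V n} (hv : c.Lam v) :
    c.G.g a b (dir v) = 0 := by
  have key : ∀ N : ℤ, 0 ≤ c.G.g a b (hat (c.u c.k₀)) + N * c.G.g a b (dir v) := by
    intro N
    have := h _ (c.X_add c.X0 (c.Lam_zsmul hv N))
    rwa [hat_add, c.G.add₃, dir_smul, c.G.smul₃] at this
  set p := c.G.g a b (hat (c.u c.k₀))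
  set q := c.G.g a b (dir v)
  by_contra hq
  obtain ⟨N, hN⟩ := exists_int_gt (|p| / |q|)
  have hq0 : 0 < |q| := abs_pos.2 hq
  rw [div_lt_iff₀ hq0] at hN
  have hp := le_abs_self p
  rcases lt_or_gt_of_ne hq with h1 | h1
  · have := key N
    rw [abs_of_neg h1] at hN
    linarith
  · have := key (-N)
    rw [abs_of_pos h1] at hN
    push_cast at this
    linarith

/-- If `G(a,b,·)` vanishes on the lattice then it vanishes on all scales. -/
lemma zero_s {a b : V n × ℝ} (h : ∀ v, c.Lam v → c.G.g a b (dir v) = 0) {i : ℕ} (hi : i < c.r) :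
    c.G.g a b (dir (c.s i)) = 0 := by
  set K := c.G.K * (‖a‖ * ‖b‖) with hK
  have hK0 : 0 ≤ K := by have := c.G.K0; positivity
  by_contra hne
  set q := c.G.g a b (dir (c.s i)) with hq
  have hq0 : 0 < |q| := abs_pos.2 hne
  obtain ⟨σ, hσ, v, hv, hvn, -⟩ := c.approx_s hi one_pos ((K + 1) / |q|)
  have h1 := c.G_approx a b v (c.s i) σ
  rw [h v hv, ← hq] at h1
  have h2 : |c.G.g a b (dir (v - σ • c.s i))| ≤ K := by
    refine (c.G.bd _ _ _).trans ?_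
    rw [norm_dir, ← mul_assoc, ← hK]
    calc K * ‖v - σ • c.s i‖ ≤ K * 1 := mul_le_mul_of_nonneg_left hvn hK0
      _ = K := mul_one _
  have h3 : |σ * q| ≤ K := by
    have : σ * q = -c.G.g a b (dir (v - σ • c.s i)) := by linarith
    rw [this, abs_neg]; exact h2
  have hσ0 : 0 < σ := lt_of_lt_of_le (by positivity) hσ
  rw [abs_mul, abs_of_pos hσ0] at h3
  rw [div_le_iff₀ hq0] at hσ
  linarith

lemma const_X {a b : V n × ℝ} (h : ∀ v, c.Lam v → c.G.g a b (dir v) = 0) {x : V n} (hx : c.X x) :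
    c.G.g a b (hat x) = c.G.g a b (hat (c.u c.k₀)) := by
  have hv : c.Lam (x - c.u c.k₀) := ⟨hx.1.sub (c.hint _), fun l hl => by
    rw [map_sub, hx.2 l hl, sub_self]⟩
  have := h _ hv
  rw [hat_sub, c.G.sub₃] at this
  linarith

/-- top coefficient, equal indices -/
lemma top_eq (hr : 0 < c.r) {i : ℕ} (hi : i < c.r)
    (h0 : c.G.g (dir (c.s i)) (dir (c.s i)) (dir (c.s i)) = 0)
    (h1 : c.G.g (dir (c.s i)) (dir (c.s i)) (dir (c.s (c.r - 1))) = 0) {x : V n} (hx : c.X x) :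
    0 ≤ c.G.g (dir (c.s i)) (dir (c.s i)) (hat x) :=
  c.nonneg_X_of_mem hr h1 (fun x hx hm => nb_b c.hN hm hx.1 (c.sc.recc i hi) h0) hx

/-- top coefficient, different indices -/
lemma top_lt (hr : 0 < c.r) {i j : ℕ} (hi : i < c.r) (hj : j < c.r)
    (h0 : c.G.g (dir (c.s i)) (dir (c.s i)) (dir (c.s i)) = 0)
    (h1 : ∀ x, c.X x → c.G.g (dir (c.s i)) (dir (c.s i)) (hat x) = 0)
    (h2 : c.G.g (dir (c.s i)) (dir (c.s j)) (dir (c.s j)) = 0)
    (h3 : c.G.g (dir (c.s i)) (dir (c.s j)) (dir (c.s (c.r - 1))) = 0) {x : V n} (hx : c.X x) :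
    0 ≤ c.G.g (dir (c.s i)) (dir (c.s j)) (hat x) := by
  refine c.nonneg_X_of_mem hr h3 (fun x hx hm => ?_) hx
  by_contra hneg
  push Not at hneg
  set a := dir (c.s i) with ha
  set b := dir (c.s j) with hb
  set η := -c.G.g a b (hat x) with hη
  have hη0 : 0 < η := by linarith
  obtain ⟨ε, hε, hsm⟩ := c.small a b (half_pos hη0)
  set N : ℝ := ‖a‖ + ‖hat x‖ + 1 with hN
  have hN1 : 1 ≤ N := by
    have := norm_nonneg a; have := norm_nonneg (hat x); linarith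
  have hNa : ‖a‖ ≤ N := by have := norm_nonneg (hat x); linarith
  have hNx : ‖hat x‖ ≤ N := by have := norm_nonneg a; linarith
  set Q := c.G.K * (N * N * N) with hQ
  have hQ0 : 0 ≤ Q := by have := c.G.K0; positivity
  have gen : ∀ u v w : V n × ℝ, ‖u‖ ≤ N → ‖v‖ ≤ N → ‖w‖ ≤ N → c.G.g u v w ≤ Q := by
    intro u v w hu hv hw
    refine (le_abs_self _).trans ((c.G.bd u v w).trans ?_)
    have := c.G.K0
    rw [hQ]
    gcongr
  obtain ⟨σ, hσ, v, hv, hvn, hrec⟩ := c.approx_s hj (lt_min hε one_pos) ((4 * Q + 1) / η)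
  have hmem : c.P.Mem (x + v) := c.P.mem_add_of hm hrec
  have hX : c.X (x + v) := c.X_add hx hv
  have h4 := nb_c c.hN hmem hX.1 (c.sc.recc i hi) h0 (h1 _ hX)
  rw [← ha] at h4
  set ρ := v - σ • c.s j with hρ
  have hvρ : dir v = σ • b + dir ρ := by
    rw [hρ, dir_sub, dir_smul, ← hb]; abel
  have hρ1 : ‖dir ρ‖ ≤ N := by
    rw [norm_dir]; exact (hvn.trans (min_le_right _ _)).trans hN1
  have hsmρ := hsm ρ (hvn.trans (min_le_left _ _))
  rw [hat_add, c.G.sq_add, hvρ, c.G.add₃, c.G.smul₃, c.G.sq_add, c.G.sq_smul, h2, c.G.smul₂] at h4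
  have e1 : c.G.g a (hat x) b = c.G.g a b (hat x) := c.G.s23 _ _ _
  rw [e1] at h4
  rw [abs_le] at hsmρ
  have g1 := gen a (hat x) (hat x) hNa hNx hNx
  have g2 := gen a (hat x) (dir ρ) hNa hNx hρ1
  have g3 := gen a (dir ρ) (dir ρ) hNa hρ1 hρ1
  have hσ0 : 0 < σ := lt_of_lt_of_le (by positivity) hσ
  rw [div_le_iff₀ hη0] at hσ
  have g4 : σ * c.G.g a b (dir ρ) ≤ σ * (η / 2) := mul_le_mul_of_nonneg_left hsmρ.2 hσ0.le
  have g5 : c.G.g a b (hat x) = -η := by rw [hη]; ring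
  rw [g5] at h4
  nlinarith

end Ctx

end Q58.Thin
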