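import Mathlib
import Pool.Agent.Q58.Thin.PartTwo

/-!
# Domination of monomials
-/

namespace Q58.Thin

open Filter Topology Asymptotics

variable {n m : ℕ}

/-- A finite sum in which every term is eventually non-negative or negligible with respect to an
eventually non-negative term is eventually non-negative. -/
lemma sum_dom {ι : Type*} [DecidableEq ι] (U : Ultrafilter ℕ) (S : Finset ι) (F : ι → ℕ → ℝ)
    (h : ∀ t ∈ S, (∀ᶠ k in (U : Filter ℕ), 0 ≤ F t k) ∨
      ∃ t' ∈ S, (∀ᶠ k in (U : Filter ℕ), 0 ≤ F t' k) ∧ F t =o[(U : Filter ℕ)] F t') :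
    ∀ᶠ k in (U : Filter ℕ), 0 ≤ ∑ t ∈ S, F t k := by
  classical
  set A : Finset ι := S.filter (fun t => ∀ᶠ k in (U : Filter ℕ), 0 ≤ F t k) with hA
  have hAev : ∀ᶠ k in (U : Filter ℕ), ∀ t ∈ A, 0 ≤ F t k := by
    rw [Filter.eventually_all_finset]
    intro t ht
    exact (Finset.mem_filter.1 ht).2
  set N : ℝ := (S.card : ℝ) + 1 with hN
  have hN0 : 0 < N := by positivity
  have hBev : ∀ᶠ k in (U : Filter ℕ), ∀ t ∈ S \ A, ∃ t' ∈ A, |F t k| ≤ 1 / N * |F t' k| := by
    rw [Filter.eventually_all_finset]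
    intro t ht
    rw [Finset.mem_sdiff] at ht
    rcases h t ht.1 with h1 | ⟨t', ht', h1, h2⟩
    · exact absurd (Finset.mem_filter.2 ⟨ht.1, h1⟩) ht.2
    · have h3 := h2.bound (by positivity : (0 : ℝ) < 1 / N)
      filter_upwards [h3] with k hk
      exact ⟨t', Finset.mem_filter.2 ⟨ht', h1⟩, by simpa [Real.norm_eq_abs] using hk⟩
  filter_upwards [hAev, hBev] with k hk1 hk2
  have hsub : A ⊆ S := Finset.filter_subset _ _
  rw [← Finset.sum_sdiff hsub]
  set SA := ∑ t ∈ A, F t k with hSA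
  have hSA0 : 0 ≤ SA := Finset.sum_nonneg hk1
  have hle : ∀ t' ∈ A, F t' k ≤ SA := fun t' ht' =>
    Finset.single_le_sum (f := fun t => F t k) (fun i hi => hk1 i hi) ht'
  have h1 : ∀ t ∈ S \ A, -(1 / N * SA) ≤ F t k := by
    intro t ht
    obtain ⟨t', ht', h2⟩ := hk2 t ht
    rw [abs_of_nonneg (hk1 t' ht')] at h2
    have h3 := neg_abs_le (F t k)
    have h4 : 1 / N * F t' k ≤ 1 / N * SA := mul_le_mul_of_nonneg_left (hle t' ht') (by positivity)
    linarith
  have h2 : ∑ t ∈ S \ A, F t k ≥ -(((S \ A).card : ℝ) * (1 / N * SA)) := by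
    have := Finset.card_nsmul_le_sum (S \ A) (fun t => F t k) _ h1
    rw [nsmul_eq_mul] at this
    linarith
  have h3 : ((S \ A).card : ℝ) ≤ N := by
    have : (S \ A).card ≤ S.card := Finset.card_le_card Finset.sdiff_subset
    have : ((S \ A).card : ℝ) ≤ S.card := by exact_mod_cast this
    linarith
  have h4 : ((S \ A).card : ℝ) * (1 / N * SA) ≤ N * (1 / N * SA) :=
    mul_le_mul_of_nonneg_right h3 (by positivity)
  have h5 : N * (1 / N * SA) = SA := by field_simp
  linarith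

lemma dir_sum {ι : Type*} (S : Finset ι) (f : ι → V n) : dir (∑ i ∈ S, f i) = ∑ i ∈ S, dir (f i) := by
  classical
  induction S using Finset.induction_on with
  | empty => rw [Finset.sum_empty, Finset.sum_empty, dir_zero]
  | insert a S ha ih => rw [Finset.sum_insert ha, Finset.sum_insert ha, dir_add, ih]

namespace Ctx

variable (c : Ctx n m)

/-- the vectors attached to an index: the scale for `i < r`, the points of the coset for `i = r` -/
def E (i : ℕ) (w : V n × ℝ) : Prop := (i < c.r ∧ w = dir (c.s i)) ∨ (i = c.r ∧ ∃ x, c.X x ∧ w = hat x)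

/-- vanishing of a triple -/
def Van (i j l : ℕ) : Prop := ∀ a b d, c.E i a → c.E j b → c.E l d → c.G.g a b d = 0

lemma van12 {i j l : ℕ} (h : c.Van i j l) : c.Van j i l := fun a b d ha hb hd => by
  rw [c.G.s12]; exact h b a d hb ha hd

lemma van23 {i j l : ℕ} (h : c.Van i j l) : c.Van i l j := fun a b d ha hb hd => by
  rw [c.G.s23]; exact h a d b ha hd hb

lemma E_lt {i : ℕ} (hi : i < c.r) : c.E i (dir (c.s i)) := Or.inl ⟨hi, rfl⟩

lemma E_top {x : V n} (hx : c.X x) : c.E c.r (hat x) := Or.inr ⟨rfl, x, hx, rfl⟩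

lemma E_lt_iff {i : ℕ} (hi : i < c.r) {w : V n × ℝ} (h : c.E i w) : w = dir (c.s i) := by
  rcases h with h | h
  · exact h.2
  · omega

lemma E_top_iff {w : V n × ℝ} (h : c.E c.r w) : ∃ x, c.X x ∧ w = hat x := by
  rcases h with h | h
  · exact absurd h.1 (lt_irrefl _)
  · exact h.2

lemma van_lt {i j l : ℕ} (hi : i < c.r) (hj : j < c.r) (hl : l < c.r) (h : c.Van i j l) :
    c.G.g (dir (c.s i)) (dir (c.s j)) (dir (c.s l)) = 0 :=
  h _ _ _ (c.E_lt hi) (c.E_lt hj) (c.E_lt hl)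

lemma van_lt_iff {i j l : ℕ} (hi : i < c.r) (hj : j < c.r) (hl : l < c.r) :
    c.Van i j l ↔ c.G.g (dir (c.s i)) (dir (c.s j)) (dir (c.s l)) = 0 := by
  refine ⟨c.van_lt hi hj hl, fun h a b d ha hb hd => ?_⟩
  rw [c.E_lt_iff hi ha, c.E_lt_iff hj hb, c.E_lt_iff hl hd, h]

lemma van_top {i j : ℕ} (hi : i < c.r) (hj : j < c.r) (h : c.Van i j c.r) {x : V n} (hx : c.X x) :
    c.G.g (dir (c.s i)) (dir (c.s j)) (hat x) = 0 :=
  h _ _ _ (c.E_lt hi) (c.E_lt hj) (c.E_top hx)

lemma van_top_iff {i j : ℕ} (hi : i < c.r) (hj : j < c.r) :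
    c.Van i j c.r ↔ ∀ x, c.X x → c.G.g (dir (c.s i)) (dir (c.s j)) (hat x) = 0 := by
  refine ⟨fun h x hx => c.van_top hi hj h hx, fun h a b d ha hb hd => ?_⟩
  obtain ⟨x, hx, rfl⟩ := c.E_top_iff hd
  rw [c.E_lt_iff hi ha, c.E_lt_iff hj hb, h x hx]

/-- vectors of the expansion of `hat (u k)` -/
noncomputable def e (i k : ℕ) : V n × ℝ := if i < c.r then dir (c.s i) else hat (c.sc.y k)

/-- coefficients of the expansion of `hat (u k)` -/
noncomputable def ω (i k : ℕ) : ℝ := if i < c.r then c.sc.τ i k else 1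

lemma e_lt {i : ℕ} (hi : i < c.r) (k : ℕ) : c.e i k = dir (c.s i) := if_pos hi

lemma e_top (k : ℕ) : c.e c.r k = hat (c.sc.y k) := if_neg (lt_irrefl _)

lemma hat_u (k : ℕ) : hat (c.u k) = ∑ i ∈ Finset.range c.r, c.sc.τ i k • dir (c.s i)
    + hat (c.sc.y k) := by
  rw [c.sc.eq k, add_comm (∑ i ∈ Finset.range c.sc.r, _), hat_add, dir_sum, add_comm]
  congr 1
  exact Finset.sum_congr rfl fun i _ => dir_smul _ _

/-- coefficient of a triple -/
noncomputable def co3 (i j l k : ℕ) : ℝ := c.G.g (c.e i k) (c.e j k) (c.e l k)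

lemma coefY {a b : V n × ℝ} (h : ∀ v, c.Lam v → c.G.g a b (dir v) = 0) :
    ∀ᶠ k in (c.U : Filter ℕ), c.G.g a b (hat (c.sc.y k)) = c.G.g a b (hat (c.u c.k₀)) := by
  filter_upwards [c.ev_X] with k hk
  rw [← c.const_X h hk, c.hat_u k, c.G.add₃, c.G.sum₃, Finset.sum_eq_zero, zero_add]
  intro i hi
  rw [c.G.smul₃, c.zero_s h (Finset.mem_range.1 hi), mul_zero]

/-- the coefficients of vanishing triples eventually vanish -/
lemma co3_van {i j l : ℕ} (hi : i < c.r) (hj : j < c.r) (hl : l ≤ c.r) (h : c.Van i j l) :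
    ∀ᶠ k in (c.U : Filter ℕ), c.co3 i j l k = 0 := by
  rcases hl.lt_or_eq with hl | rfl
  · apply Eventually.of_forall
    intro k
    rw [co3, c.e_lt hi, c.e_lt hj, c.e_lt hl, c.van_lt hi hj hl h]
  · have h1 := (c.van_top_iff hi hj).1 h
    have h2 : ∀ v, c.Lam v → c.G.g (dir (c.s i)) (dir (c.s j)) (dir v) = 0 := fun v hv =>
      c.zero_Lam (fun x hx => (h1 x hx).ge) hv
    filter_upwards [c.coefY h2] with k hk
    rw [co3, c.e_lt hi, c.e_lt hj, c.e_top, hk, h1 _ c.X0]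

/-- A triple with eventually constant positive coefficient. -/
def Good (i j l : ℕ) : Prop := ∃ κ : ℝ, 0 < κ ∧ ∀ᶠ k in (c.U : Filter ℕ), c.co3 i j l k = κ

/-- Key positivity: dominance-minimal non-vanishing triples are good. -/
lemma good_of_min {i j l : ℕ} (hij : i ≤ j) (hjl : j ≤ l) (hl : l ≤ c.r) (hj : j < c.r)
    (hmin : ∀ i' j' l', i' ≤ i → j' ≤ j → l' ≤ l → (i', j', l') ≠ (i, j, l) → c.Van i' j' l')
    (hne : ¬ c.Van i j l) : c.Good i j l := by
  have hi : i < c.r := by omega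
  have hr : 0 < c.r := by omega
  have hri := c.sc.recc i hi
  have hrj := c.sc.recc j hj
  have hm := c.hmem c.k₀
  have hxi := c.hint c.k₀
  rcases hl.lt_or_eq with hl | rfl
  · -- cubic coefficients
    have hrl := c.sc.recc l hl
    have hne' : c.G.g (dir (c.s i)) (dir (c.s j)) (dir (c.s l)) ≠ 0 := fun h =>
      hne ((c.van_lt_iff hi hj hl).2 h)
    have hnn : 0 ≤ c.G.g (dir (c.s i)) (dir (c.s j)) (dir (c.s l)) := by
      rcases hij.lt_or_eq with hij | rfl
      · rcases hjl.lt_or_eq with hjl | rfl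
        · have h0 := c.van_lt hi hi hi (hmin i i i (by omega) (by omega) (by omega) (by simp; omega))
          have h1 := c.van_lt hi hi hj (hmin i i j (by omega) (by omega) (by omega) (by simp; omega))
          have h2 := c.van_lt hi hi hl (hmin i i l (by omega) (by omega) (by omega) (by simp; omega))
          have h3 := c.van_lt hi hj hj (hmin i j j (by omega) (by omega) (by omega) (by simp; omega))
          exact cub_ijk c.hN hm hxi hri hrj hrl h0 h1 h2 h3
        · have h0 := c.van_lt hi hi hi (hmin i i i (by omega) (by omega) (by omega) (by simp; omega))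
          have h1 := c.van_lt hi hi hj (hmin i i j (by omega) (by omega) (by omega) (by simp; omega))
          exact cub_ijj c.hN hm hxi hri hrj h0 h1
      · rcases hjl.lt_or_eq with hjl | rfl
        · have h0 := c.van_lt hi hi hi (hmin i i i (by omega) (by omega) (by omega) (by simp; omega))
          exact cub_iik c.hN hm hxi hri hrl h0
        · exact nb_a c.hN hm hxi hri
    refine ⟨_, lt_of_le_of_ne hnn hne'.symm, Eventually.of_forall fun k => ?_⟩
    rw [co3, c.e_lt hi, c.e_lt hj, c.e_lt hl]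
  · -- top coefficients
    have hr1 : c.r - 1 < c.r := by omega
    have h0 := c.van_lt hi hi hi (hmin i i i (by omega) (by omega) (by omega) (by simp; omega))
    have hnn : ∀ x, c.X x → 0 ≤ c.G.g (dir (c.s i)) (dir (c.s j)) (hat x) := by
      intro x hx
      rcases hij.lt_or_eq with hij | rfl
      · have h1 : ∀ x, c.X x → c.G.g (dir (c.s i)) (dir (c.s i)) (hat x) = 0 := fun x hx =>
          c.van_top hi hi (hmin i i c.r (by omega) (by omega) (by omega) (by simp; omega)) hx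
        have h2 := c.van_lt hi hj hj (hmin i j j (by omega) (by omega) (by omega) (by simp; omega))
        have h3 := c.van_lt hi hj hr1 (hmin i j (c.r - 1) (by omega) (by omega) (by omega)
          (by simp; omega))
        exact c.top_lt hr hi hj h0 h1 h2 h3 hx
      · have h1 := c.van_lt hi hi hr1 (hmin i i (c.r - 1) (by omega) (by omega) (by omega)
          (by simp; omega))
        exact c.top_eq hr hi h0 h1 hx
    have hz : ∀ v, c.Lam v → c.G.g (dir (c.s i)) (dir (c.s j)) (dir v) = 0 := fun v hv =>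
      c.zero_Lam hnn hv
    have hne' : c.G.g (dir (c.s i)) (dir (c.s j)) (hat (c.u c.k₀)) ≠ 0 := by
      intro h
      apply hne
      rw [c.van_top_iff hi hj]
      intro x hx
      rw [c.const_X hz hx, h]
    refine ⟨_, lt_of_le_of_ne (hnn _ c.X0) hne'.symm, ?_⟩
    filter_upwards [c.coefY hz] with k hk
    rw [co3, c.e_lt hi, c.e_lt hj, c.e_top, hk]

/-- sorting a triple below a sorted triple -/
lemma sort_below {i j l i' j' l' : ℕ} (hij : i ≤ j) (hjl : j ≤ l) (h1 : i' ≤ i) (h2 : j' ≤ j)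
    (h3 : l' ≤ l) : ∃ a b d, a ≤ b ∧ b ≤ d ∧ a ≤ i ∧ b ≤ j ∧ d ≤ l ∧ a + b + d = i' + j' + l' ∧
      (c.Van a b d → c.Van i' j' l') := by
  rcases le_total i' j' with e1 | e1
  · rcases le_total j' l' with e2 | e2
    · exact ⟨i', j', l', e1, e2, h1, h2, h3, rfl, id⟩
    · rcases le_total i' l' with e3 | e3
      · exact ⟨i', l', j', e3, e2, h1, by omega, by omega, by omega, fun h => c.van23 h⟩
      · exact ⟨l', i', j', e3, e1, by omega, by omega, by omega, by omega,
          fun h => c.van23 (c.van12 h)⟩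
  · rcases le_total i' l' with e2 | e2
    · exact ⟨j', i', l', e1, e2, by omega, by omega, h3, by omega, fun h => c.van12 h⟩
    · rcases le_total j' l' with e3 | e3
      · exact ⟨j', l', i', e3, e2, by omega, by omega, by omega, by omega,
          fun h => c.van12 (c.van23 h)⟩
      · exact ⟨l', j', i', e3, e1, by omega, by omega, by omega, by omega,
          fun h => c.van12 (c.van23 (c.van12 h))⟩

/-- Below every sorted non-vanishing triple there is a good one. -/
lemma good_below (N : ℕ) : ∀ i j l, i + j + l ≤ N → i ≤ j → j ≤ l → l ≤ c.r → j < c.r →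
    ¬ c.Van i j l → ∃ i' j' l', i' ≤ i ∧ j' ≤ j ∧ l' ≤ l ∧ i' ≤ j' ∧ j' ≤ l' ∧
      c.Good i' j' l' ∧ ¬ c.Van i' j' l' := by
  induction N with
  | zero =>
    intro i j l hs hij hjl hl hj hne
    refine ⟨i, j, l, le_rfl, le_rfl, le_rfl, hij, hjl, c.good_of_min hij hjl hl hj ?_ hne, hne⟩
    intro i' j' l' h1 h2 h3 h4
    exfalso
    apply h4
    simp only [Prod.mk.injEq]
    omega
  | succ N ih =>
    intro i j l hs hij hjl hl hj hne
    by_cases hmin : ∀ i' j' l', i' ≤ i → j' ≤ j → l' ≤ l → (i', j', l') ≠ (i, j, l) →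
        c.Van i' j' l'
    · exact ⟨i, j, l, le_rfl, le_rfl, le_rfl, hij, hjl, c.good_of_min hij hjl hl hj hmin hne, hne⟩
    · push Not at hmin
      obtain ⟨i', j', l', h1, h2, h3, h4, h5⟩ := hmin
      obtain ⟨a, b, d, hab, hbd, ha, hb, hd, hsum, hV⟩ := c.sort_below hij hjl h1 h2 h3
      have hlt : i' + j' + l' < i + j + l := by
        by_contra hcon
        apply h4
        simp only [Prod.mk.injEq]
        omega
      obtain ⟨i'', j'', l'', g1, g2, g3, g4, g5, g6, g7⟩ := ih a b d (by omega) hab hbd (by omega)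
        (by omega) (fun h => h5 (hV h))
      exact ⟨i'', j'', l'', by omega, by omega, by omega, g4, g5, g6, g7⟩

lemma ω_lt {i j : ℕ} (hij : i < j) (hj : j ≤ c.r) : (c.ω j) =o[(c.U : Filter ℕ)] (c.ω i) := by
  have hi : i < c.r := by omega
  have e1 : c.ω i = c.sc.τ i := by funext k; exact if_pos hi
  rcases hj.lt_or_eq with hj | rfl
  · have e2 : c.ω j = c.sc.τ j := by funext k; exact if_pos hj
    rw [e1, e2]
    exact c.sc.lit i j hij hj
  · have e2 : c.ω c.r = fun _ => (1 : ℝ) := by funext k; exact if_neg (lt_irrefl _)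
    rw [e1, e2]
    exact (isLittleO_const_left_of_ne one_ne_zero).2 (tendsto_norm_atTop_atTop.comp (c.sc.top i hi))

lemma ω_le {i j : ℕ} (hij : i ≤ j) (hj : j ≤ c.r) : (c.ω j) =O[(c.U : Filter ℕ)] (c.ω i) := by
  rcases hij.lt_or_eq with h | rfl
  · exact (c.ω_lt h hj).isBigO
  · exact isBigO_refl _ _

lemma ω_nonneg {i : ℕ} : ∀ᶠ k in (c.U : Filter ℕ), 0 ≤ c.ω i k := by
  by_cases hi : i < c.r
  · filter_upwards [(c.sc.top i hi).eventually_ge_atTop 0] with k hk
    rw [ω, if_pos hi]; exact hk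
  · exact Eventually.of_forall fun k => by rw [ω, if_neg hi]; exact zero_le_one

lemma prod_dom {i j l i' j' l' : ℕ} (h1 : i' ≤ i) (h2 : j' ≤ j) (h3 : l' ≤ l) (hi : i ≤ c.r)
    (hj : j ≤ c.r) (hl : l ≤ c.r) (hne : (i', j', l') ≠ (i, j, l)) :
    (fun k => c.ω i k * c.ω j k * c.ω l k) =o[(c.U : Filter ℕ)]
      (fun k => c.ω i' k * c.ω j' k * c.ω l' k) := by
  rcases h1.lt_or_eq with h1' | rfl
  · exact ((c.ω_lt h1' hi).mul_isBigO (c.ω_le h2 hj)).mul_isBigO (c.ω_le h3 hl)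
  · rcases h2.lt_or_eq with h2' | rfl
    · exact ((isBigO_refl _ _).mul_isLittleO (c.ω_lt h2' hj)).mul_isBigO (c.ω_le h3 hl)
    · rcases h3.lt_or_eq with h3' | rfl
      · exact (isBigO_refl _ _).mul_isLittleO (c.ω_lt h3' hl)
      · exact absurd rfl hne

lemma e_bdd (i : ℕ) : ∃ B : ℝ, 0 ≤ B ∧ ∀ᶠ k in (c.U : Filter ℕ), ‖c.e i k‖ ≤ B := by
  by_cases hi : i < c.r
  · exact ⟨‖dir (c.s i)‖, norm_nonneg _, Eventually.of_forall fun k => by rw [c.e_lt hi]⟩
  · refine ⟨|c.sc.C| + 1, by positivity, ?_⟩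
    filter_upwards [c.sc.yb] with k hk
    rw [e, if_neg hi]
    have := norm_hat (c.sc.y k)
    have := le_abs_self c.sc.C
    linarith

lemma co3_bdd (i j l : ℕ) : (fun k => c.co3 i j l k) =O[(c.U : Filter ℕ)] (fun _ => (1 : ℝ)) := by
  obtain ⟨B1, hB1, h1⟩ := c.e_bdd i
  obtain ⟨B2, hB2, h2⟩ := c.e_bdd j
  obtain ⟨B3, hB3, h3⟩ := c.e_bdd l
  apply IsBigO.of_bound (c.G.K * (B1 * B2 * B3))
  filter_upwards [h1, h2, h3] with k h1 h2 h3
  rw [norm_one, mul_one, Real.norm_eq_abs]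
  refine (c.G.bd _ _ _).trans ?_
  have := c.G.K0
  gcongr

/-- truncated coefficients -/
noncomputable def ωt (a₀ i k : ℕ) : ℝ := if i < a₀ then 0 else c.ω i k

/-- terms of the expansion -/
noncomputable def F (a₀ : ℕ) (t : ℕ × ℕ × ℕ) (k : ℕ) : ℝ :=
  c.ωt a₀ t.1 k * c.ωt a₀ t.2.1 k * c.ωt a₀ t.2.2 k * c.co3 t.1 t.2.1 t.2.2 k

lemma F_swap12 (a₀ i j l : ℕ) : c.F a₀ (i, j, l) = c.F a₀ (j, i, l) := by
  funext k; simp only [F, co3]; rw [c.G.s12]; ring

lemma F_swap23 (a₀ i j l : ℕ) : c.F a₀ (i, j, l) = c.F a₀ (i, l, j) := by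
  funext k; simp only [F, co3]; rw [c.G.s23]; ring

lemma F_good {a₀ i j l : ℕ} (h : c.Good i j l) :
    ∀ᶠ k in (c.U : Filter ℕ), 0 ≤ c.F a₀ (i, j, l) k := by
  obtain ⟨κ, hκ, hev⟩ := h
  filter_upwards [hev, c.ω_nonneg (i := i), c.ω_nonneg (i := j), c.ω_nonneg (i := l)] with k h1 h2 h3 h4
  have g : ∀ i, 0 ≤ c.ω i k → 0 ≤ c.ωt a₀ i k := by
    intro i hi
    rw [ωt]; split_ifs
    · exact le_rfl
    · exact hi
  simp only [F, h1]
  have := g i h2
  have := g j h3
  have := g l h4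
  positivity

lemma F_dom {a₀ i j l i' j' l' : ℕ} (h1 : i' ≤ i) (h2 : j' ≤ j) (h3 : l' ≤ l) (hi : i ≤ c.r)
    (hj : j ≤ c.r) (hl : l ≤ c.r) (hne : (i', j', l') ≠ (i, j, l)) (ha : a₀ ≤ i')
    (hij : i' ≤ j') (hjl : j' ≤ l') (hg : c.Good i' j' l') :
    c.F a₀ (i, j, l) =o[(c.U : Filter ℕ)] c.F a₀ (i', j', l') := by
  have e : ∀ p, a₀ ≤ p → ∀ k, c.ωt a₀ p k = c.ω p k := by
    intro p hp k; rw [ωt, if_neg (by omega)]
  have e1 : c.F a₀ (i, j, l) = fun k => (c.ω i k * c.ω j k * c.ω l k) * c.co3 i j l k := by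
    funext k
    simp only [F]
    rw [e i (by omega), e j (by omega), e l (by omega)]
  have e2 : c.F a₀ (i', j', l') = fun k => (c.ω i' k * c.ω j' k * c.ω l' k) * c.co3 i' j' l' k := by
    funext k
    simp only [F]
    rw [e i' (by omega), e j' (by omega), e l' (by omega)]
  rw [e1, e2]
  apply (c.prod_dom h1 h2 h3 hi hj hl hne).mul_isBigO
  refine (c.co3_bdd i j l).trans ?_
  obtain ⟨κ, hκ, hev⟩ := hg
  apply IsBigO.of_bound (1 / κ)
  filter_upwards [hev] with k hk
  rw [hk, norm_one, Real.norm_eq_abs, abs_of_pos hκ]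
  rw [one_div, inv_mul_cancel₀ hκ.ne']

/-- classification of the sorted terms -/
lemma classify {a₀ p q w : ℕ} (hrow : ∀ a < a₀, ∀ b < c.r, ∀ d ≤ c.r, c.Van a b d)
    (ha₀ : a₀ < c.r) (hp : p = a₀) (hpq : p ≤ q) (hqw : q ≤ w) (hq : q < c.r) (hw : w ≤ c.r)
    (hpne : ¬ c.Van p q w) {i j l : ℕ} (hij : i ≤ j) (hjl : j ≤ l) (hl : l ≤ c.r) :
    (∀ᶠ k in (c.U : Filter ℕ), 0 ≤ c.F a₀ (i, j, l) k) ∨
      ∃ i' j' l', i' ≤ c.r ∧ j' ≤ c.r ∧ l' ≤ c.r ∧
        (∀ᶠ k in (c.U : Filter ℕ), 0 ≤ c.F a₀ (i', j', l') k) ∧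
        c.F a₀ (i, j, l) =o[(c.U : Filter ℕ)] c.F a₀ (i', j', l') := by
  by_cases hi : i < a₀
  · left
    apply Eventually.of_forall
    intro k
    simp only [F, ωt, if_pos hi, zero_mul, le_refl]
  · have hia : a₀ ≤ i := by omega
    by_cases hj : j < c.r
    · by_cases hV : c.Van i j l
      · left
        filter_upwards [c.co3_van (by omega) hj hl hV] with k hk
        simp only [F, hk, mul_zero, le_refl]
      · obtain ⟨i', j', l', g1, g2, g3, g4, g5, g6, g7⟩ :=
          c.good_below (i + j + l) i j l le_rfl hij hjl hl hj hV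
        have hi' : a₀ ≤ i' := by
          by_contra hcon
          exact g7 (hrow i' (by omega) j' (by omega) l' (by omega))
        by_cases heq : (i', j', l') = (i, j, l)
        · left
          rw [← heq]
          exact c.F_good g6
        · right
          exact ⟨i', j', l', by omega, by omega, by omega, c.F_good g6,
            c.F_dom g1 g2 g3 (by omega) (by omega) hl heq hi' g4 g5 g6⟩
    · right
      obtain ⟨i', j', l', g1, g2, g3, g4, g5, g6, g7⟩ :=
        c.good_below (p + q + w) p q w le_rfl hpq hqw hw hq hpne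
      have hi' : a₀ ≤ i' := by
        by_contra hcon
        exact g7 (hrow i' (by omega) j' (by omega) l' (by omega))
      refine ⟨i', j', l', by omega, by omega, by omega, c.F_good g6,
        c.F_dom (by omega) (by omega) (by omega) (by omega) (by omega) hl ?_ hi' g4 g5 g6⟩
      simp only [ne_eq, Prod.mk.injEq]
      omega

/-- classification of all terms -/
lemma classify' {a₀ p q w : ℕ} (hrow : ∀ a < a₀, ∀ b < c.r, ∀ d ≤ c.r, c.Van a b d)
    (ha₀ : a₀ < c.r) (hp : p = a₀) (hpq : p ≤ q) (hqw : q ≤ w) (hq : q < c.r) (hw : w ≤ c.r)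
    (hpne : ¬ c.Van p q w) {i j l : ℕ} (hi : i ≤ c.r) (hj : j ≤ c.r) (hl : l ≤ c.r) :
    (∀ᶠ k in (c.U : Filter ℕ), 0 ≤ c.F a₀ (i, j, l) k) ∨
      ∃ i' j' l', i' ≤ c.r ∧ j' ≤ c.r ∧ l' ≤ c.r ∧
        (∀ᶠ k in (c.U : Filter ℕ), 0 ≤ c.F a₀ (i', j', l') k) ∧
        c.F a₀ (i, j, l) =o[(c.U : Filter ℕ)] c.F a₀ (i', j', l') := by
  have cl := @classify n m c a₀ p q w hrow ha₀ hp hpq hqw hq hw hpne
  rcases le_total i j with e1 | e1
  · rcases le_total j l with e2 | e2
    · exact cl e1 e2 hl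
    · rcases le_total i l with e3 | e3
      · rw [c.F_swap23 a₀ i j l]; exact cl e3 e2 hj
      · rw [c.F_swap23 a₀ i j l, c.F_swap12 a₀ i l j]; exact cl e3 e1 hj
  · rcases le_total i l with e2 | e2
    · rw [c.F_swap12 a₀ i j l]; exact cl e1 e2 hl
    · rcases le_total j l with e3 | e3
      · rw [c.F_swap12 a₀ i j l, c.F_swap23 a₀ j i l]; exact cl e3 e2 hi
      · rw [c.F_swap12 a₀ i j l, c.F_swap23 a₀ j i l, c.F_swap12 a₀ j l i]; exact cl e3 e1 hi

end Ctx

end Q58.Thin
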