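import Mathlib
import Pool.Agent.Q58.Thin.PartThree

/-!
# The thin ray theorem
-/

namespace Q58.Thin

open Filter Topology Asymptotics

variable {n m : ℕ}

namespace Ctx

variable (c : Ctx n m)

/-- the part of the expansion in the vanishing rows -/
noncomputable def Dk (a₀ k : ℕ) : V n := ∑ i ∈ Finset.range a₀, c.sc.τ i k • c.s i

lemma Dk_rec {a₀ : ℕ} (ha : a₀ ≤ c.r) : ∀ᶠ k in (c.U : Filter ℕ), c.P.Rec (c.Dk a₀ k) := by
  have h : ∀ᶠ k in (c.U : Filter ℕ), ∀ i ∈ Finset.range a₀, 0 ≤ c.sc.τ i k := by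
    rw [Filter.eventually_all_finset]
    intro i hi
    exact (c.sc.top i (lt_of_lt_of_le (Finset.mem_range.1 hi) ha)).eventually_ge_atTop 0
  filter_upwards [h] with k hk
  apply Pol.Rec.sum
  intro i hi
  exact (c.sc.recc i (lt_of_lt_of_le (Finset.mem_range.1 hi) ha)).smul (hk i hi)

lemma dir_Dk (a₀ k : ℕ) : dir (c.Dk a₀ k) = ∑ i ∈ Finset.range a₀, c.sc.τ i k • dir (c.s i) := by
  rw [Dk, dir_sum]
  exact Finset.sum_congr rfl fun i _ => dir_smul _ _

lemma DDD {a₀ : ℕ} (ha : a₀ ≤ c.r) (hrow : ∀ a < a₀, ∀ b < c.r, ∀ d ≤ c.r, c.Van a b d) (k : ℕ) :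
    c.G.g (dir (c.Dk a₀ k)) (dir (c.Dk a₀ k)) (dir (c.Dk a₀ k)) = 0 := by
  rw [c.dir_Dk, c.G.sum₁]
  apply Finset.sum_eq_zero
  intro a hA
  have hA' := Finset.mem_range.1 hA
  rw [c.G.sum₂]
  apply Finset.sum_eq_zero
  intro b hB
  have hB' := Finset.mem_range.1 hB
  rw [c.G.sum₃]
  apply Finset.sum_eq_zero
  intro d hd
  have hd' := Finset.mem_range.1 hd
  rw [c.G.smul₁, c.G.smul₂, c.G.smul₃, c.van_lt (by omega) (by omega) (by omega)
    (hrow a hA' b (by omega) d (by omega))]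
  ring

lemma DDx {a₀ : ℕ} (ha : a₀ ≤ c.r) (hrow : ∀ a < a₀, ∀ b < c.r, ∀ d ≤ c.r, c.Van a b d) (k : ℕ)
    {x : V n} (hx : c.X x) :
    c.G.g (dir (c.Dk a₀ k)) (dir (c.Dk a₀ k)) (hat x) = 0 := by
  rw [c.dir_Dk, c.G.sum₁]
  apply Finset.sum_eq_zero
  intro a hA
  have hA' := Finset.mem_range.1 hA
  rw [c.G.sum₂]
  apply Finset.sum_eq_zero
  intro b hB
  have hB' := Finset.mem_range.1 hB
  rw [c.G.smul₁, c.G.smul₂, c.van_top (by omega) (by omega)
    (hrow a hA' b (by omega) c.r le_rfl) hx]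
  ring

/-- removing the vanishing rows decreases the value -/
lemma cub_ge {a₀ : ℕ} (ha : a₀ ≤ c.r) (hrow : ∀ a < a₀, ∀ b < c.r, ∀ d ≤ c.r, c.Van a b d) :
    ∀ᶠ k in (c.U : Filter ℕ), c.G.g (hat (c.u k) - dir (c.Dk a₀ k)) (hat (c.u k) - dir (c.Dk a₀ k))
      (hat (c.u k) - dir (c.Dk a₀ k)) ≤ cub c.G (c.u k) := by
  filter_upwards [c.Dk_rec ha, c.ev_X] with k hk1 hk2
  have h1 := c.DDD ha hrow k
  have h2 := c.DDx ha hrow k hk2
  have h3 := nb_c c.hN (c.hmem k) (c.hint k) hk1 h1 h2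
  set D := dir (c.Dk a₀ k)
  set x := hat (c.u k) with hx
  have e1 : x = D + (x - D) := by abel
  have e2 : cub c.G (c.u k) = c.G.g (D + (x - D)) (D + (x - D)) (D + (x - D)) := by
    rw [← e1]; rfl
  have e3 : c.G.g D D (x - D) = 0 := by rw [c.G.sub₃, h1, h2, sub_zero]
  have e4 : c.G.g D (x - D) (x - D) = c.G.g D x x := by
    have : c.G.g D x x = c.G.g D (D + (x - D)) (D + (x - D)) := by rw [← e1]
    rw [this, c.G.sq_add, h1, e3]; ring
  rw [e2, c.G.cube_add, h1, e3, e4]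
  linarith

lemma R_eq {a₀ : ℕ} (ha : a₀ ≤ c.r) (k : ℕ) : hat (c.u k) - dir (c.Dk a₀ k) =
    ∑ i ∈ Finset.range (c.r + 1), c.ωt a₀ i k • c.e i k := by
  rw [c.hat_u, c.dir_Dk, Finset.sum_range_succ, c.e_top]
  have h1 : c.ωt a₀ c.r k = 1 := by
    rw [ωt, if_neg (by omega), ω, if_neg (lt_irrefl _)]
  rw [h1, one_smul]
  have h2 : ∑ i ∈ Finset.range a₀, c.sc.τ i k • dir (c.s i) =
      ∑ i ∈ Finset.range c.r, (if i < a₀ then c.sc.τ i k • dir (c.s i) else 0) := by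
    rw [← Finset.sum_filter]
    apply Finset.sum_congr
    · ext i
      simp only [Finset.mem_range, Finset.mem_filter]
      omega
    · intro i _; rfl
  rw [h2, add_sub_right_comm, ← Finset.sum_sub_distrib]
  congr 1
  apply Finset.sum_congr rfl
  intro i hi
  have hi' := Finset.mem_range.1 hi
  rw [c.e_lt hi', ωt, ω, if_pos hi']
  split_ifs
  · rw [sub_self, zero_smul]
  · rw [sub_zero]

lemma R_cube {a₀ : ℕ} (k : ℕ) :
    c.G.g (∑ i ∈ Finset.range (c.r + 1), c.ωt a₀ i k • c.e i k)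
      (∑ i ∈ Finset.range (c.r + 1), c.ωt a₀ i k • c.e i k)
      (∑ i ∈ Finset.range (c.r + 1), c.ωt a₀ i k • c.e i k) =
    ∑ t ∈ (Finset.range (c.r + 1)) ×ˢ ((Finset.range (c.r + 1)) ×ˢ (Finset.range (c.r + 1))),
      c.F a₀ t k := by
  rw [Finset.sum_product, c.G.sum₁]
  apply Finset.sum_congr rfl
  intro i _
  rw [Finset.sum_product, c.G.sum₂]
  apply Finset.sum_congr rfl
  intro j _
  rw [c.G.sum₃]
  apply Finset.sum_congr rfl
  intro l _
  rw [c.G.smul₁, c.G.smul₂, c.G.smul₃, F, co3]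
  ring

/-- The cubic function is bounded below along the ultrafilter. -/
theorem bdd : ∃ M : ℝ, ∀ᶠ k in (c.U : Filter ℕ), M ≤ cub c.G (c.u k) := by
  by_cases hall : ∀ a < c.r, ∀ b < c.r, ∀ d ≤ c.r, c.Van a b d
  · -- all rows vanish
    obtain ⟨B, hB, hev⟩ := c.e_bdd c.r
    refine ⟨-(c.G.K * (B * B * B)), ?_⟩
    filter_upwards [c.cub_ge le_rfl hall, hev] with k hk1 hk2
    have h1 : hat (c.u k) - dir (c.Dk c.r k) = hat (c.sc.y k) := by
      rw [c.hat_u, c.dir_Dk]; abel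
    rw [h1] at hk1
    rw [c.e_top] at hk2
    have h2 := c.G.bd (hat (c.sc.y k)) (hat (c.sc.y k)) (hat (c.sc.y k))
    have h3 : c.G.K * (‖hat (c.sc.y k)‖ * ‖hat (c.sc.y k)‖ * ‖hat (c.sc.y k)‖)
        ≤ c.G.K * (B * B * B) := by
      have := c.G.K0
      gcongr
    have h4 := neg_abs_le (c.G.g (hat (c.sc.y k)) (hat (c.sc.y k)) (hat (c.sc.y k)))
    linarith
  · -- first non-vanishing row
    have hex : ∃ a, a < c.r ∧ ∃ b < c.r, ∃ d ≤ c.r, ¬ c.Van a b d := by
      push Not at hall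
      obtain ⟨a, ha, b, hb, d, hd, h⟩ := hall
      exact ⟨a, ha, b, hb, d, hd, h⟩
    classical
    set a₀ := Nat.find hex with ha₀
    obtain ⟨ha₀r, b, hb, d, hd, hne⟩ := Nat.find_spec hex
    have hrow : ∀ a < a₀, ∀ b < c.r, ∀ d ≤ c.r, c.Van a b d := by
      intro a ha b hb d hd
      by_contra hcon
      exact Nat.find_min hex ha ⟨by omega, b, hb, d, hd, hcon⟩
    have hba : a₀ ≤ b := by
      by_contra hcon
      exact hne (c.van12 (hrow b (by omega) a₀ (by omega) d hd))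
    have hda : a₀ ≤ d := by
      by_contra hcon
      exact hne (c.van23 (c.van12 (hrow d (by omega) a₀ (by omega) b (by omega))))
    -- sorted version
    obtain ⟨q, w, hpq, hqw, hq, hw, hpne⟩ : ∃ q w, a₀ ≤ q ∧ q ≤ w ∧ q < c.r ∧ w ≤ c.r ∧
        ¬ c.Van a₀ q w := by
      rcases le_total b d with e | e
      · exact ⟨b, d, hba, e, hb, hd, hne⟩
      · exact ⟨d, b, hda, e, by omega, by omega, fun h => hne (c.van23 h)⟩
    refine ⟨0, ?_⟩
    have hdom := sum_dom c.U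
      ((Finset.range (c.r + 1)) ×ˢ ((Finset.range (c.r + 1)) ×ˢ (Finset.range (c.r + 1))))
      (c.F a₀) (by
        rintro ⟨i, j, l⟩ ht
        simp only [Finset.mem_product, Finset.mem_range] at ht
        rcases c.classify' (p := a₀) (q := q) (w := w) hrow ha₀r rfl hpq hqw hq hw hpne
          (i := i) (j := j) (l := l) (by omega) (by omega) (by omega) with h | ⟨i', j', l', g1, g2, g3, g4, g5⟩
        · exact Or.inl h
        · right
          refine ⟨(i', j', l'), ?_, g4, g5⟩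
          simp only [Finset.mem_product, Finset.mem_range]
          omega)
    filter_upwards [c.cub_ge ha₀r.le hrow, hdom] with k hk1 hk2
    rw [c.R_eq ha₀r.le, c.R_cube] at hk1
    linarith

end Ctx

/-- along the ultrafilter the lattice points lie in one coset -/
lemma exists_coset (P : Pol n m) (U : Ultrafilter ℕ) (u : ℕ → V n) (hint : ∀ k, IsInt (u k))
    (sc : Scales P U u) : ∃ k₀, ∀ᶠ k in (U : Filter ℕ), ∀ l, (∀ i < sc.r, P.φ l (sc.s i) = 0) →
      P.φ l (u k) = P.φ l (u k₀) := by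
  have hφ : ∀ l, (∀ i < sc.r, P.φ l (sc.s i) = 0) → ∀ k, P.φ l (u k) = P.φ l (sc.y k) := by
    intro l hl k
    rw [sc.eq k, map_add, map_sum, Finset.sum_eq_zero, zero_add]
    intro i hi
    rw [map_smul, hl i (Finset.mem_range.1 hi), smul_zero]
  obtain ⟨e, -, he⟩ := (isCompact_closedBall (0 : V n) sc.C).ultrafilter_le_nhds (U.map sc.y) (by
    rw [le_principal_iff]
    apply Filter.mem_map.2
    filter_upwards [sc.yb] with k hk
    rw [Set.mem_preimage, mem_closedBall_zero_iff]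
    exact hk)
  have hlim : Tendsto sc.y U (𝓝 e) := he
  have hev : ∀ᶠ k in (U : Filter ℕ), ∀ l, |P.φ l (sc.y k) - P.φ l e| < P.δ / 2 := by
    rw [eventually_all]
    intro l
    have h1 : Tendsto (fun k => P.φ l (sc.y k)) U (𝓝 (P.φ l e)) :=
      ((P.φ l).continuous.tendsto e).comp hlim
    have := h1.eventually (Metric.ball_mem_nhds _ (half_pos P.δ0))
    filter_upwards [this] with k hk
    simpa [Metric.mem_ball, Real.dist_eq] using hk
  obtain ⟨k₀, hk₀⟩ := hev.exists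
  refine ⟨k₀, ?_⟩
  filter_upwards [hev] with k hk l hl
  have h1 := hk l
  have h2 := hk₀ l
  have h3 : |P.φ l (u k - u k₀)| < P.δ := by
    rw [map_sub, hφ l hl, hφ l hl]
    rw [abs_lt] at *
    constructor <;> linarith [h1.1, h1.2, h2.1, h2.2]
  have h4 := P.disc l _ ((hint k).sub (hint k₀)) h3
  rw [map_sub] at h4
  linarith

/-- Without bad rays the cubic function is bounded below on the lattice points. -/
theorem bdd_of_noBad (P : Pol n m) (G : Tri (V n × ℝ)) (hN : NoBad P G) :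
    ∃ M : ℝ, ∀ x, P.Mem x → IsInt x → M ≤ cub G x := by
  by_contra hcon
  push Not at hcon
  choose u hu using fun k : ℕ => hcon (-(k : ℝ))
  have hmem : ∀ k, P.Mem (u k) := fun k => (hu k).1
  have hint : ∀ k, IsInt (u k) := fun k => (hu k).2.1
  have hlt : ∀ k : ℕ, cub G (u k) < -(k : ℝ) := fun k => (hu k).2.2
  set U : Ultrafilter ℕ := hyperfilter ℕ with hU
  obtain ⟨sc⟩ := exists_scales P U u hmem
  obtain ⟨k₀, hk₀⟩ := exists_coset P U u hint sc
  obtain ⟨M, hM⟩ := Ctx.bdd ⟨P, G, U, u, hN, hint, hmem, sc, k₀, hk₀⟩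
  have h1 : ∀ᶠ k : ℕ in (U : Filter ℕ), -M ≤ (k : ℝ) := by
    have : ∀ᶠ k : ℕ in atTop, -M ≤ (k : ℝ) := tendsto_natCast_atTop_atTop.eventually_ge_atTop _
    exact this.filter_mono Nat.hyperfilter_le_atTop
  obtain ⟨k, hk1, hk2⟩ := (hM.and h1).exists
  have := hlt k
  simp only at hk1
  linarith

end Q58.Thin
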