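import Mathlib
import Pool.Agent.Q58.Thin.Main

/-!
# The thin ray theorem for rational polyhedra
-/

namespace Q58.Thin

open MvPolynomial

variable {n m : ℕ}

/-- the functional of the `l`-th inequality -/
noncomputable def rowφ (A : Matrix (Fin m) (Fin n) ℚ) (l : Fin m) : V n →L[ℝ] ℝ :=
  ∑ j, (A l j : ℝ) • EuclideanSpace.proj j

lemma rowφ_apply (A : Matrix (Fin m) (Fin n) ℚ) (l : Fin m) (x : V n) :
    rowφ A l x = ∑ j, (A l j : ℝ) * x j := by
  simp [rowφ]

/-- a common denominator -/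
def cden (A : Matrix (Fin m) (Fin n) ℚ) : ℕ := ∏ l, ∏ j, (A l j).den

lemma cden_pos (A : Matrix (Fin m) (Fin n) ℚ) : 0 < cden A :=
  Finset.prod_pos fun l _ => Finset.prod_pos fun j _ => (A l j).den_pos

lemma cden_mul (A : Matrix (Fin m) (Fin n) ℚ) (l : Fin m) (j : Fin n) :
    ∃ z : ℤ, (cden A : ℝ) * (A l j : ℝ) = z := by
  have h1 : (A l j).den ∣ cden A :=
    (Finset.dvd_prod_of_mem (fun j => (A l j).den) (Finset.mem_univ j)).trans
      (Finset.dvd_prod_of_mem (fun l => ∏ j, (A l j).den) (Finset.mem_univ l))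
  obtain ⟨q, hq⟩ := h1
  refine ⟨(q : ℤ) * (A l j).num, ?_⟩
  have h2 : (A l j : ℝ) = ((A l j).num : ℝ) / ((A l j).den : ℝ) := by
    exact_mod_cast congrArg (fun x : ℚ => (x : ℝ)) (Rat.num_div_den (A l j)).symm
  have h3 : ((A l j).den : ℝ) ≠ 0 := by exact_mod_cast (A l j).den_ne_zero
  rw [hq, h2]
  push_cast
  field_simp

/-- the polyhedron of a rational system -/
noncomputable def polOf (A : Matrix (Fin m) (Fin n) ℚ) (b : Fin m → ℚ) : Pol n m where
  φ := rowφ A
  b l := (b l : ℝ)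
  δ := 1 / (cden A : ℝ)
  δ0 := by have := cden_pos A; positivity
  disc := by
    intro l v hv h
    have hN : (0 : ℝ) < cden A := by exact_mod_cast cden_pos A
    obtain ⟨z, hz⟩ : ∃ z : ℤ, (cden A : ℝ) * rowφ A l v = z := by
      rw [rowφ_apply, Finset.mul_sum]
      have : ∀ j, ∃ z : ℤ, (cden A : ℝ) * ((A l j : ℝ) * v j) = z := by
        intro j
        obtain ⟨z, hz⟩ := cden_mul A l j
        obtain ⟨w, hw⟩ := hv j
        exact ⟨z * w, by rw [← mul_assoc, hz, hw]; push_cast; rfl⟩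
      choose f hf using this
      exact ⟨∑ j, f j, by push_cast; exact Finset.sum_congr rfl fun j _ => hf j⟩
    have h1 : |(z : ℝ)| < 1 := by
      rw [← hz, abs_mul, abs_of_pos hN]
      calc (cden A : ℝ) * |rowφ A l v| < cden A * (1 / cden A) := by gcongr
        _ = 1 := by field_simp
    have h2 : z = 0 := by
      have : |z| < 1 := by exact_mod_cast h1
      exact Int.abs_lt_one_iff.1 this
    rw [h2] at hz
    simp only [Int.cast_zero, mul_eq_zero] at hz
    rcases hz with hz | hz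
    · exact absurd hz hN.ne'
    · exact hz

lemma mem_polyhedron_iff (A : Matrix (Fin m) (Fin n) ℚ) (b : Fin m → ℚ) (x : V n) :
    x ∈ polyhedron A b ↔ (polOf A b).Mem x := by
  simp only [polyhedron, Set.mem_ofPred_eq, Pol.Mem, polOf, rowφ_apply]

/-- The thin ray theorem. -/
theorem thin_ray (A : Matrix (Fin m) (Fin n) ℚ) (b : Fin m → ℚ) (p : MvPolynomial (Fin n) ℝ)
    (hp : p.totalDegree ≤ 3) :
    UnbddBelowOn (fun x => eval (fun j => x j) p) {x | x ∈ polyhedron A b ∧ IsInt x} ↔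
      ∃ y d, IsUnboundedThinRay (polyhedron A b) (fun x => eval (fun j => x j) p) y d := by
  constructor
  · intro h
    obtain ⟨G, hG⟩ := rep_poly p hp
    by_contra hcon
    push Not at hcon
    have hN : NoBad (polOf A b) G := by
      intro x D hx hD hD0 hbad
      apply hcon x D
      refine ⟨hD0, ?_, ?_⟩
      · rintro z ⟨t, ht, rfl⟩
        rw [mem_polyhedron_iff]
        exact (polOf A b).mem_add_of hx (hD.smul ht)
      · intro ε hε M
        obtain ⟨z, hz1, hz2, ⟨t, ht, hzt⟩, hz3⟩ := hbad ε hε M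
        exact ⟨z, ⟨(mem_polyhedron_iff A b z).2 hz1, hz2, _, ⟨t, ht, rfl⟩, hzt⟩,
          by rw [hG z]; exact hz3⟩
    obtain ⟨M, hM⟩ := bdd_of_noBad _ _ hN
    obtain ⟨x, ⟨hx1, hx2⟩, hx3⟩ := h M
    have := hM x ((mem_polyhedron_iff A b x).1 hx1) hx2
    rw [hG x] at hx3
    exact absurd this (not_le.2 hx3)
  · rintro ⟨y, d, -, -, h⟩ M
    obtain ⟨x, ⟨hx1, hx2, -⟩, hx3⟩ := h 1 one_pos M
    exact ⟨x, ⟨hx1, hx2⟩, hx3⟩

end Q58.Thin
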